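import Pool.Agent.Helper91_LT.Uni

/-!
# LT: LIM. Convergence of moments implies convergence of the eigenvalue distributions.
-/

set_option autoImplicit false

namespace Pool.Agent.LT.H91

open Matrix MeasureTheory Polynomial

section mat

variable {ι : Type} [Fintype ι] [DecidableEq ι]

theorem trace_pow {A : Matrix ι ι ℝ} (hA : A.IsHermitian) (k : ℕ) :
    (A ^ k).trace = ∑ i, hA.eigenvalues i ^ k := by
  have h1 : A ^ k = (Unitary.conjStarAlgAut ℝ _ hA.eigenvectorUnitary)
      (diagonal (RCLike.ofReal ∘ hA.eigenvalues) ^ k) := by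
    rw [map_pow, ← hA.spectral_theorem]
  rw [h1, Unitary.conjStarAlgAut_apply, Matrix.trace_mul_comm, ← mul_assoc]
  rw [Unitary.coe_star_mul_self, one_mul, diagonal_pow, trace_diagonal]
  simp

theorem roots_eq {A : Matrix ι ι ℝ} (hA : A.IsHermitian) :
    A.charpoly.roots = Finset.univ.val.map hA.eigenvalues := by
  rw [hA.roots_charpoly_eq_eigenvalues]
  rfl

theorem eig_le {A : Matrix ι ι ℝ} (hA : A.IsHermitian) {K : ℝ} (hK : 0 ≤ K) (hB : Bd A K)
    (i : ι) : hA.eigenvalues i ≤ K := by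
  have h1 := hA.mulVec_eigenvectorBasis i
  have h2 := hB (hA.eigenvectorBasis i)
  rw [h1] at h2
  simp only [smul_dotProduct, dotProduct_smul, smul_eq_mul] at h2
  have h3 : (hA.eigenvectorBasis i : ι → ℝ) ⬝ᵥ (hA.eigenvectorBasis i : ι → ℝ) = 1 := by
    have h4 := hA.eigenvectorBasis.orthonormal.1 i
    have h5 : inner ℝ (hA.eigenvectorBasis i) (hA.eigenvectorBasis i) = (1 : ℝ) := by
      rw [real_inner_self_eq_norm_sq, h4]; norm_num
    rw [EuclideanSpace.inner_eq_star_dotProduct] at h5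
    simpa using h5
  rw [h3] at h2
  nlinarith [abs_nonneg (hA.eigenvalues i), sq_nonneg (hA.eigenvalues i - K)]

end mat

theorem lim : LimStmt := by
  intro μ K hfin hK hsupp φ hφ ε hε
  set m := μ.real Set.univ with hm
  have hm0 : 0 ≤ m := by positivity
  set ε' := ε / (2 * (K + m)) with hε'
  have hKm : 0 < K + m := by linarith
  have hε'0 : 0 < ε' := by positivity
  obtain ⟨p, hp⟩ := exists_polynomial_near_of_continuousOn 0 K φ hφ.continuousOn ε' hε'0
  set s := p.sum fun _ a => |a| with hs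
  have hs0 : 0 ≤ s := by
    rw [hs, Polynomial.sum_def]
    exact Finset.sum_nonneg fun _ _ => abs_nonneg _
  refine ⟨p.natDegree, ε / (2 * (s + 1)), by positivity, ?_⟩
  intro ι _ _ A N hcard hpos hBd hmom
  have hA := hpos.isHermitian
  have hN0 : (0 : ℝ) ≤ N := Nat.cast_nonneg N
  have hmem : ∀ i, hA.eigenvalues i ∈ Set.Icc (0 : ℝ) K := fun i =>
    ⟨hpos.eigenvalues_nonneg i, eig_le hA (by linarith) hBd i⟩
  have hroots : (A.charpoly.roots.map φ).sum = ∑ i, φ (hA.eigenvalues i) := by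
    rw [roots_eq hA, Multiset.map_map]
    rfl
  have h1 : |∑ i, p.eval (hA.eigenvalues i) - ∑ i, φ (hA.eigenvalues i)| ≤ ε' * (K * N) := by
    rw [← Finset.sum_sub_distrib]
    calc |∑ i, (p.eval (hA.eigenvalues i) - φ (hA.eigenvalues i))|
        ≤ ∑ i : ι, |p.eval (hA.eigenvalues i) - φ (hA.eigenvalues i)| :=
          Finset.abs_sum_le_sum_abs _ _
      _ ≤ ∑ _i : ι, ε' := Finset.sum_le_sum fun i _ => (hp _ (hmem i)).le
      _ = ε' * Fintype.card ι := by simp [mul_comm]
      _ ≤ ε' * (K * N) := by gcongr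
  have h2 : |∫ x, p.eval x ∂μ - ∫ x, φ x ∂μ| ≤ ε' * m :=
    approx hsupp hφ p fun x hx => (hp x hx).le
  have h3 : ∑ i, p.eval (hA.eigenvalues i) = p.sum fun k a => a * (A ^ k).trace := by
    simp_rw [Polynomial.eval_eq_sum, Polynomial.sum_def, trace_pow hA, Finset.mul_sum]
    rw [Finset.sum_comm]
  have h4 : |∑ i, p.eval (hA.eigenvalues i) - N * ∫ x, p.eval x ∂μ| ≤
      s * (ε / (2 * (s + 1)) * N) := by
    rw [h3, integral_poly hsupp, Polynomial.sum_def, Polynomial.sum_def, Finset.mul_sum,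
      ← Finset.sum_sub_distrib, hs, Polynomial.sum_def, Finset.sum_mul]
    refine (Finset.abs_sum_le_sum_abs _ _).trans (Finset.sum_le_sum fun k hk => ?_)
    have h5 : p.coeff k * (A ^ k).trace - N * (p.coeff k * ∫ x, x ^ k ∂μ) =
        p.coeff k * ((A ^ k).trace - N * ∫ x, x ^ k ∂μ) := by ring
    rw [h5, abs_mul]
    exact mul_le_mul_of_nonneg_left (hmom k (Polynomial.le_natDegree_of_mem_supp k hk))
      (abs_nonneg _)
  have h6 : s * (ε / (2 * (s + 1)) * N) ≤ ε / 2 * N := by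
    have : s * (ε / (2 * (s + 1)) * N) = (s / (s + 1)) * (ε / 2 * N) := by field_simp
    rw [this]
    have h7 : s / (s + 1) ≤ 1 := by
      rw [div_le_one (by positivity)]
      linarith
    exact mul_le_of_le_one_left (by positivity) h7
  have h8 : ε' * (K * N) + N * (ε' * m) = ε / 2 * N := by
    rw [hε']
    field_simp
  rw [hroots]
  calc |∑ i, φ (hA.eigenvalues i) - N * ∫ x, φ x ∂μ|
      = |-(∑ i, p.eval (hA.eigenvalues i) - ∑ i, φ (hA.eigenvalues i)) +
        (∑ i, p.eval (hA.eigenvalues i) - N * ∫ x, p.eval x ∂μ) +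
        N * (∫ x, p.eval x ∂μ - ∫ x, φ x ∂μ)| := by congr 1; ring
    _ ≤ |-(∑ i, p.eval (hA.eigenvalues i) - ∑ i, φ (hA.eigenvalues i))| +
        |(∑ i, p.eval (hA.eigenvalues i) - N * ∫ x, p.eval x ∂μ)| +
        |N * (∫ x, p.eval x ∂μ - ∫ x, φ x ∂μ)| := abs_add_three _ _ _
    _ ≤ ε' * (K * N) + s * (ε / (2 * (s + 1)) * N) + N * (ε' * m) := by
        rw [abs_neg, abs_mul, abs_of_nonneg hN0]
        gcongr
    _ ≤ ε * N := by linarith

end Pool.Agent.LT.H91
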