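import Pool.Agent.Helper91_LT.Lim
import Pool.Agent.Helper61_LT.Tools

/-!
# LT: LOG. Determinant class for sofic groups.
-/

set_option autoImplicit false

namespace Pool.Agent.LT.H91

open Matrix MeasureTheory Filter Topology

/-! ### The finite models -/

/-- The integral Laplacian in degree `p`. -/
noncomputable def LZ {ι : Type} [Fintype ι] (dc : ι → ℕ) (d : Matrix ι ι ℤ) (p : ℕ) :
    Matrix {x // dc x = p} {x // dc x = p} ℤ :=
  (d * dᵀ + dᵀ * d).submatrix Subtype.val Subtype.val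

theorem cst_LZ {ι : Type} [Fintype ι] (dc : ι → ℕ) (d : Matrix ι ι ℤ) (p : ℕ) :
    cst (LZ dc d p) = Lpp dc (cst d) p := by
  unfold LZ Lpp Lp
  rw [cst_submatrix, cst_add, cst_mul, cst_mul, cst_transpose]

theorem lpp_posSemidef {ι : Type} [Fintype ι] (dc : ι → ℕ) (d : Matrix ι ι ℝ) (p : ℕ) :
    (Lpp dc d p).PosSemidef := by
  unfold Lpp Lp
  refine PosSemidef.submatrix ?_ _
  refine PosSemidef.add ?_ ?_
  · have := posSemidef_self_mul_conjTranspose d
    rwa [conjTranspose_eq_transpose_of_trivial] at this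
  · have := posSemidef_conjTranspose_mul_self d
    rwa [conjTranspose_eq_transpose_of_trivial] at this

theorem lpp_bd {ι : Type} [Fintype ι] (dc : ι → ℕ) (d : Matrix ι ι ℝ) (p : ℕ) {K : ℝ}
    (hK : 0 ≤ K) (h : Bd d K) : Bd (Lpp dc d p) (2 * K ^ 2) := by
  unfold Lpp Lp
  have ht := Bd.transpose hK h
  have h1 := (Bd.mul h ht).add (Bd.mul ht h) (by positivity) (by positivity)
  have h2 := h1.submatrix (f := (Subtype.val : {x // dc x = p} → ι))
    (g := (Subtype.val : {x // dc x = p} → ι)) Subtype.val_injective Subtype.val_injective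
  refine h2.mono (by positivity) (by nlinarith)

theorem nb_mono {G : Type} [Group G] {V : Type} [Fintype V] (a : V → G → V) {R R' : Finset G}
    (h : R ⊆ R') : nb a R ≤ nb a R' := by
  unfold nb
  refine Set.ncard_le_ncard ?_ (Set.toFinite _)
  refine Set.compl_subset_compl.mpr ?_
  intro v hv
  exact ⟨hv.1, fun g hg g' hg' => hv.2.1 g (h hg) g' (h hg'),
    fun g hg g' hg' => hv.2.2 g (h hg) g' (h hg')⟩

theorem model (hSof : SofStmt) (hMom : MomStmt) (hDvs : DvsStmt) (G : Type) [Group G]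
    (hG : Sofic G) (C : Res G) (p : ℕ) : ∃ K : ℝ, 1 ≤ K ∧ ∀ (k0 : ℕ) (η : ℝ), 0 < η →
    ∃ (ι : Type) (_ : Fintype ι) (_ : DecidableEq ι) (A : Matrix ι ι ℤ) (N : ℕ), 0 < N ∧
      (Fintype.card ι : ℝ) ≤ K * N ∧ (cst A).PosSemidef ∧ Bd (cst A) K ∧
      ∀ k ≤ k0, |((cst A) ^ k).trace - N * (tr1 (C.lapp p ^ k) : ℝ)| ≤ η * N := by
  classical
  obtain ⟨K1, R1, hK1, hD⟩ := hDvs G C
  refine ⟨max (2 * K1 ^ 2) (Fintype.card C.X), ?_, ?_⟩
  · refine le_max_of_le_left ?_
    nlinarith
  intro k0 η hη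
  choose R' M hM using fun k => hMom G C R1 p k
  let R2 : Finset G := (Finset.range (k0 + 1)).biUnion R'
  let M2 : ℕ := ∑ k ∈ Finset.range (k0 + 1), M k
  obtain ⟨n, a, hn, hbij, hnb⟩ := hSof G hG R2 (η / (M2 + 1)) (by positivity)
  refine ⟨{x : Fin n × C.X // C.dim x.2 = p}, inferInstance, inferInstance,
    LZ (fun v : Fin n × C.X => C.dim v.2) (dV C a R1) p, n, hn, ?_, ?_, ?_, ?_⟩
  · have h1 : Fintype.card {x : Fin n × C.X // C.dim x.2 = p} ≤ n * Fintype.card C.X := by
      refine (Fintype.card_subtype_le _).trans ?_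
      rw [Fintype.card_prod, Fintype.card_fin]
    calc (Fintype.card {x : Fin n × C.X // C.dim x.2 = p} : ℝ) ≤ ((n * Fintype.card C.X : ℕ) : ℝ) :=
          by exact_mod_cast h1
      _ = (Fintype.card C.X : ℝ) * n := by push_cast; ring
      _ ≤ max (2 * K1 ^ 2) (Fintype.card C.X : ℝ) * n := by
          gcongr
          exact le_max_right _ _
  · rw [cst_LZ]
    exact lpp_posSemidef _ _ _
  · rw [cst_LZ]
    exact (lpp_bd _ _ _ (by linarith) (hD R1 (Finset.Subset.refl _) (Fin n) a hbij).2.2).mono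
      (by positivity) (le_max_left _ _)
  · intro k hk
    rw [cst_LZ]
    have h1 := hM k (Fin n) a hbij
    rw [Fintype.card_fin] at h1
    refine h1.trans ?_
    have hk' : k ∈ Finset.range (k0 + 1) := Finset.mem_range.mpr (by omega)
    have h2 : nb a (R' k) ≤ nb a R2 := nb_mono a (Finset.subset_biUnion_of_mem R' hk')
    have h3 : M k ≤ M2 := Finset.single_le_sum (f := M) (fun _ _ => Nat.zero_le _) hk'
    calc (M k : ℝ) * nb a (R' k) ≤ M2 * (η / (M2 + 1) * n) := by
          have h4 : (nb a (R' k) : ℝ) ≤ η / (M2 + 1) * n :=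
            le_trans (by exact_mod_cast h2) hnb
          have h5 : (M k : ℝ) ≤ M2 := by exact_mod_cast h3
          gcongr
      _ = (M2 / (M2 + 1)) * (η * n) := by field_simp
      _ ≤ 1 * (η * n) := by
          have h6 : (M2 : ℝ) / (M2 + 1) ≤ 1 := by
            rw [div_le_one (by positivity)]
            linarith
          gcongr
      _ = η * n := one_mul _

/-! ### Test functions -/

/-- The function `min (M, max (0, -log x))`. -/
noncomputable def phi (M : ℝ) (x : ℝ) : ℝ := max 0 (-Real.log (max x (Real.exp (-M))))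

theorem phi_cont (M : ℝ) : Continuous (phi M) := by
  unfold phi
  refine continuous_const.max (Continuous.neg (Continuous.log (by fun_prop) fun x => ?_))
  exact ne_of_gt (lt_max_of_lt_right (Real.exp_pos _))

theorem phi_nonneg (M x : ℝ) : 0 ≤ phi M x := le_max_left _ _

theorem phi_le {M : ℝ} (hM : 0 ≤ M) (x : ℝ) : phi M x ≤ M := by
  unfold phi
  refine max_le hM ?_
  have h1 : Real.exp (-M) ≤ max x (Real.exp (-M)) := le_max_right _ _
  have h2 := Real.log_le_log (Real.exp_pos _) h1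
  rw [Real.log_exp] at h2
  linarith

theorem phi_le_log {M x : ℝ} (hx : 0 < x) : phi M x ≤ max 0 (-Real.log x) := by
  unfold phi
  refine max_le_max le_rfl ?_
  have h1 : x ≤ max x (Real.exp (-M)) := le_max_left _ _
  have h2 := Real.log_le_log hx h1
  linarith

theorem phi_eq {M x : ℝ} (hx : 0 < x) (hM : -Real.log x ≤ M) : phi M x = max 0 (-Real.log x) := by
  unfold phi
  have h1 : Real.exp (-M) ≤ x := by
    have : -M ≤ Real.log x := by linarith
    calc Real.exp (-M) ≤ Real.exp (Real.log x) := Real.exp_le_exp.mpr this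
      _ = x := Real.exp_log hx
  rw [max_eq_left h1]

theorem phi_mono {M M' : ℝ} (h : M ≤ M') (x : ℝ) : phi M x ≤ phi M' x := by
  unfold phi
  refine max_le_max le_rfl ?_
  have h1 : max x (Real.exp (-M')) ≤ max x (Real.exp (-M)) :=
    max_le_max le_rfl (Real.exp_le_exp.mpr (by linarith))
  have h2 := Real.log_le_log (lt_max_of_lt_right (Real.exp_pos _)) h1
  linarith

/-- The hat function. -/
noncomputable def hat (η : ℝ) (x : ℝ) : ℝ := max 0 (1 - x / η)

theorem hat_cont (η : ℝ) : Continuous (hat η) := by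
  unfold hat
  fun_prop

theorem hat_nonneg (η x : ℝ) : 0 ≤ hat η x := le_max_left _ _

theorem hat_zero (η : ℝ) : hat η 0 = 1 := by
  unfold hat
  simp

theorem hat_lim {μ : Measure ℝ} [IsFiniteMeasure μ] {K : ℝ} (hsupp : μ (Set.Icc 0 K)ᶜ = 0)
    (h0 : μ {0} = 0) : Tendsto (fun j : ℕ => ∫ x, hat (1 / ((j : ℝ) + 1)) x ∂μ) atTop (𝓝 0) := by
  have h1 : ∀ᵐ x ∂μ, x ≠ 0 := by
    rw [ae_iff]
    simpa using h0
  have h2 : Tendsto (fun j : ℕ => ∫ x, hat (1 / ((j : ℝ) + 1)) x ∂μ) atTop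
      (𝓝 (∫ _x, (0 : ℝ) ∂μ)) := by
    refine tendsto_integral_of_dominated_convergence (fun _ => 1) ?_ (integrable_const _) ?_ ?_
    · intro j
      exact (hat_cont _).aestronglyMeasurable
    · intro j
      filter_upwards [ae_mem hsupp] with x hx
      rw [Real.norm_eq_abs, abs_of_nonneg (hat_nonneg _ _)]
      unfold hat
      refine max_le zero_le_one ?_
      have : 0 ≤ x / (1 / ((j : ℝ) + 1)) := div_nonneg hx.1 (by positivity)
      linarith
    · filter_upwards [ae_mem hsupp, h1] with x hx hx0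
      have hxpos : 0 < x := lt_of_le_of_ne hx.1 (Ne.symm hx0)
      refine tendsto_const_nhds.congr' ?_
      obtain ⟨J, hJ⟩ := exists_nat_gt (1 / x)
      filter_upwards [eventually_ge_atTop J] with j hj
      unfold hat
      symm
      refine max_eq_left ?_
      have h3 : (1 : ℝ) / x < j + 1 := by
        have : (J : ℝ) ≤ j := by exact_mod_cast hj
        linarith
      rw [div_lt_iff₀ hxpos] at h3
      rw [div_div_eq_mul_div, div_one]
      nlinarith
  simpa using h2

theorem filter_sum (s : Multiset ℝ) (P : ℝ → Prop) [DecidablePred P] (f : ℝ → ℝ) :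
    ((s.filter P).map f).sum = (s.map fun x => if P x then f x else 0).sum := by
  induction s using Multiset.induction_on with
  | empty => simp
  | cons a s ih =>
    by_cases h : P a
    · rw [Multiset.filter_cons_of_pos _ h, Multiset.map_cons, Multiset.sum_cons,
        Multiset.map_cons, Multiset.sum_cons, ih, if_pos h]
    · rw [Multiset.filter_cons_of_neg _ h, Multiset.map_cons, Multiset.sum_cons, ih, if_neg h,
        zero_add]

theorem phi_bound (hSof : SofStmt) (hMom : MomStmt) (hCnt : CntStmt) (hDvs : DvsStmt)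
    (G : Type) [Group G] (hG : Sofic G) (C : Res G) (p : ℕ) (μ : Measure ℝ)
    (hs : IsSpec (C.lapp p) μ) (M η ε : ℝ) (hM : 0 ≤ M) (hε : 0 < ε) :
    ∫ x, phi M x ∂μ ≤ M * (∫ x, hat η x ∂μ + ε) + ∫ x, x ∂μ + 2 * ε := by
  have := hs.fin
  obtain ⟨K2, hK2⟩ := hs.supp
  obtain ⟨K1, hK1, hmod⟩ := model hSof hMom hDvs G hG C p
  set K := max K1 K2 with hKdef
  have hK : 1 ≤ K := le_max_of_le_left hK1
  have hsupp : μ (Set.Icc 0 K)ᶜ = 0 :=
    measure_mono_null (Set.compl_subset_compl.mpr (Set.Icc_subset_Icc_right (le_max_right _ _)))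
      hK2
  obtain ⟨k1, η1, hη1, hl1⟩ := lim μ K inferInstance hK hsupp (phi M) (phi_cont M) ε hε
  obtain ⟨k2, η2, hη2, hl2⟩ := lim μ K inferInstance hK hsupp (hat η) (hat_cont η) ε hε
  obtain ⟨ι, _, _, A, N, hN, hcard, hpos, hbd, hmom⟩ := hmod (k1 + k2 + 1) (min (min η1 η2) ε)
    (lt_min (lt_min hη1 hη2) hε)
  have hN0 : (0 : ℝ) < N := by exact_mod_cast hN
  have hcard' : (Fintype.card ι : ℝ) ≤ K * N := hcard.trans (by gcongr; exact le_max_left _ _)
  have hbd' : Bd (cst A) K := hbd.mono (by linarith) (le_max_left _ _)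
  have h1 := hl1 ι (cst A) N hcard' hpos hbd' fun k hk => by
    rw [hs.mom]
    refine (hmom k (by omega)).trans ?_
    gcongr
    exact (min_le_left _ _).trans (min_le_left _ _)
  have h2 := hl2 ι (cst A) N hcard' hpos hbd' fun k hk => by
    rw [hs.mom]
    refine (hmom k (by omega)).trans ?_
    gcongr
    exact (min_le_left _ _).trans (min_le_right _ _)
  have h3 := hmom 1 (by omega)
  rw [← hs.mom, pow_one] at h3
  simp only [pow_one] at h3
  have h3' : |(cst A).trace - N * ∫ x, x ∂μ| ≤ ε * N := h3.trans (by gcongr; exact min_le_right _ _)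
  have h4 := hCnt ι A hpos
  have h5 : ((cst A).charpoly.roots.map (phi M)).sum ≤
      M * ((cst A).charpoly.roots.map (hat η)).sum +
      (((cst A).charpoly.roots.filter fun x => 0 < x ∧ x < 1).map fun x =>
        Real.log (1 / x)).sum := by
    rw [filter_sum, ← Multiset.sum_map_mul_left, ← Multiset.sum_map_add]
    refine Multiset.sum_map_le_sum_map _ _ fun x hx => ?_
    have hx0 : 0 ≤ x := by
      rw [roots_eq hpos.isHermitian] at hx
      obtain ⟨i, _, rfl⟩ := Multiset.mem_map.mp hx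
      exact hpos.eigenvalues_nonneg i
    rcases eq_or_lt_of_le hx0 with h0 | h0
    · rw [← h0, hat_zero, if_neg (by simp)]
      have := phi_le hM 0
      linarith
    · have h6 := phi_le_log (M := M) h0
      have h7 : 0 ≤ M * hat η x := mul_nonneg hM (hat_nonneg _ _)
      rcases lt_or_ge x 1 with h8 | h8
      · rw [if_pos ⟨h0, h8⟩]
        have h9 : Real.log (1 / x) = -Real.log x := by rw [one_div, Real.log_inv]
        have h10 : Real.log x ≤ 0 := Real.log_nonpos hx0 h8.le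
        rw [max_eq_right (by linarith)] at h6
        rw [h9]
        linarith
      · rw [if_neg (by intro h; linarith [h.2])]
        have h10 : 0 ≤ Real.log x := Real.log_nonneg h8
        rw [max_eq_left (by linarith)] at h6
        linarith
  have h11 := (abs_le.mp h1).1
  have h12 := (abs_le.mp h2).2
  have h13 := (abs_le.mp h3').2
  have h14 : M * ((cst A).charpoly.roots.map (hat η)).sum ≤
      M * (N * ∫ x, hat η x ∂μ + ε * N) := mul_le_mul_of_nonneg_left (by linarith) hM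
  have h15 : N * ∫ x, phi M x ∂μ ≤
      N * (M * (∫ x, hat η x ∂μ + ε) + ∫ x, x ∂μ + 2 * ε) := by
    have h16 : M * (N * ∫ x, hat η x ∂μ + ε * N) = N * (M * (∫ x, hat η x ∂μ + ε)) := by ring
    have h17 : N * (M * (∫ x, hat η x ∂μ + ε) + ∫ x, x ∂μ + 2 * ε) =
      N * (M * (∫ x, hat η x ∂μ + ε)) + N * ∫ x, x ∂μ + 2 * ε * N := by ring
    rw [h17]
    linarith
  exact le_of_mul_le_mul_left h15 hN0

theorem phi_bound' (hSof : SofStmt) (hMom : MomStmt) (hCnt : CntStmt) (hDvs : DvsStmt)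
    (G : Type) [Group G] (hG : Sofic G) (C : Res G) (p : ℕ) (μ : Measure ℝ)
    (hs : IsSpec (C.lapp p) μ) (h0 : μ {0} = 0) (M : ℝ) (hM : 0 ≤ M) :
    ∫ x, phi M x ∂μ ≤ ∫ x, x ∂μ := by
  have := hs.fin
  obtain ⟨K2, hK2⟩ := hs.supp
  refine le_of_forall_pos_le_add fun ε hε => ?_
  set ε' := ε / (2 * M + 3) with hε'
  have hε'0 : 0 < ε' := by positivity
  have h1 := (Metric.tendsto_atTop.mp (hat_lim hK2 h0)) ε' hε'0
  obtain ⟨J, hJ⟩ := h1
  have h2 := hJ J le_rfl
  rw [Real.dist_eq, sub_zero] at h2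
  have h3 := (abs_lt.mp h2).2
  have h4 := phi_bound hSof hMom hCnt hDvs G hG C p μ hs M (1 / ((J : ℝ) + 1)) ε' hM hε'0
  have h5 : M * (∫ x, hat (1 / ((J : ℝ) + 1)) x ∂μ + ε') ≤ M * (2 * ε') :=
    mul_le_mul_of_nonneg_left (by linarith) hM
  have h6 : ε = M * (2 * ε') + 3 * ε' := by
    rw [hε']
    field_simp
  linarith

theorem log (hSof : SofStmt) (hMom : MomStmt) (_hLim : LimStmt) (hCnt : CntStmt)
    (hDvs : DvsStmt) : LogStmt := by
  intro G _ hG C p μ hs h0
  have := hs.fin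
  obtain ⟨K, hK⟩ := hs.supp
  refine Integrable.integrableOn ?_
  refine ⟨Real.measurable_log.aestronglyMeasurable, ?_⟩
  have hpos : ∀ᵐ x ∂μ, 0 < x ∧ x ≤ K := by
    have h1 : ∀ᵐ x ∂μ, x ≠ 0 := by
      rw [ae_iff]
      simpa using h0
    filter_upwards [ae_mem hK, h1] with x hx hx0
    exact ⟨lt_of_le_of_ne hx.1 (Ne.symm hx0), hx.2⟩
  have hlint : ∀ n : ℕ, ∫⁻ x, ENNReal.ofReal (phi n x) ∂μ ≤ ENNReal.ofReal (∫ x, x ∂μ) := by
    intro n
    rw [← ofReal_integral_eq_lintegral_ofReal (integrable_of_supp hK (phi_cont _))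
      (Filter.Eventually.of_forall fun x => phi_nonneg _ _)]
    exact ENNReal.ofReal_le_ofReal
      (phi_bound' hSof hMom hCnt hDvs G hG C p μ hs h0 n (Nat.cast_nonneg n))
  have hsup : ∫⁻ x, ⨆ n : ℕ, ENNReal.ofReal (phi n x) ∂μ ≤ ENNReal.ofReal (∫ x, x ∂μ) := by
    rw [lintegral_iSup]
    · exact iSup_le hlint
    · intro n
      exact ENNReal.measurable_ofReal.comp (phi_cont _).measurable
    · intro m n hmn x
      exact ENNReal.ofReal_le_ofReal (phi_mono (by exact_mod_cast hmn) x)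
  have hle : ∀ᵐ x ∂μ, ‖Real.log x‖ₑ ≤ (⨆ n : ℕ, ENNReal.ofReal (phi n x)) + ENNReal.ofReal K := by
    filter_upwards [hpos] with x hx
    obtain ⟨n, hn⟩ := exists_nat_ge (-Real.log x)
    have h1 : ENNReal.ofReal (max 0 (-Real.log x)) ≤ ⨆ n : ℕ, ENNReal.ofReal (phi n x) := by
      rw [← phi_eq hx.1 hn]
      exact le_iSup (fun n : ℕ => ENNReal.ofReal (phi n x)) n
    refine le_trans ?_ (add_le_add h1 le_rfl)
    have hK0 : 0 ≤ K := hx.1.le.trans hx.2
    rw [← ENNReal.ofReal_add (le_max_left _ _) hK0, ← ofReal_norm, Real.norm_eq_abs]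
    refine ENNReal.ofReal_le_ofReal ?_
    have h2 : Real.log x ≤ K := (Real.log_le_self hx.1.le).trans hx.2
    rcases abs_cases (Real.log x) with ⟨h, h'⟩ | ⟨h, h'⟩ <;> rw [h]
    · have := le_max_left 0 (-Real.log x)
      linarith
    · have := le_max_right 0 (-Real.log x)
      linarith
  unfold HasFiniteIntegral
  calc ∫⁻ x, ‖Real.log x‖ₑ ∂μ
      ≤ ∫⁻ x, ((⨆ n : ℕ, ENNReal.ofReal (phi n x)) + ENNReal.ofReal K) ∂μ :=
        lintegral_mono_ae hle
    _ = (∫⁻ x, (⨆ n : ℕ, ENNReal.ofReal (phi n x)) ∂μ) + ∫⁻ _x, ENNReal.ofReal K ∂μ :=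
        lintegral_add_right _ measurable_const
    _ < ⊤ := by
        refine ENNReal.add_lt_top.mpr ⟨lt_of_le_of_lt hsup ENNReal.ofReal_lt_top, ?_⟩
        rw [lintegral_const]
        exact ENNReal.mul_lt_top ENNReal.ofReal_lt_top (measure_lt_top _ _)

end Pool.Agent.LT.H91
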