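import Pool.Agent.Helper91_LT.Opr2

/-!
# LT: OPR, part 3. The logarithm of the Fuglede-Kadison determinant and the `L²`-Betti number as
limits of von Neumann traces.
-/

set_option autoImplicit false

namespace Pool.Agent.LT.H91

open Matrix MeasureTheory Filter Topology

theorem logmax_cont {ε : ℝ} (hε : 0 < ε) : Continuous fun x : ℝ => Real.log (max x ε) :=
  Continuous.log (by fun_prop) fun _ => ne_of_gt (lt_max_of_lt_right hε)

theorem ae_pos {μ : Measure ℝ} {K : ℝ} (hK : μ (Set.Icc 0 K)ᶜ = 0) (h0 : μ {0} = 0) :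
    ∀ᵐ x ∂μ, 0 < x ∧ x ≤ K := by
  have h1 : ∀ᵐ x ∂μ, x ≠ 0 := by
    rw [ae_iff]
    simpa using h0
  filter_upwards [ae_mem hK, h1] with x hx hx0
  exact ⟨lt_of_le_of_ne hx.1 (Ne.symm hx0), hx.2⟩

/-- `∫ log (max x ε) dμ → ∫_(x > 0) log x dμ` as `ε → 0`. -/
theorem logmax_lim {μ : Measure ℝ} [IsFiniteMeasure μ] {K : ℝ} (hK : μ (Set.Icc 0 K)ᶜ = 0)
    (h0 : μ {0} = 0) (hint : IntegrableOn Real.log (Set.Ioi 0) μ) :
    Tendsto (fun ε : ℝ => ∫ x, Real.log (max x ε) ∂μ) (𝓝[>] 0)
      (𝓝 (∫ x in Set.Ioi 0, Real.log x ∂μ)) := by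
  have hpos := ae_pos hK h0
  have hres : μ.restrict (Set.Ioi 0) = μ := by
    refine Measure.restrict_eq_self_of_ae_mem ?_
    filter_upwards [hpos] with x hx using hx.1
  unfold IntegrableOn at hint
  rw [hres] at hint ⊢
  refine tendsto_integral_filter_of_dominated_convergence (fun x => |Real.log x|) ?_ ?_
    hint.abs ?_
  · filter_upwards [self_mem_nhdsWithin] with ε hε
    exact (logmax_cont hε).aestronglyMeasurable
  · filter_upwards [self_mem_nhdsWithin,
      mem_nhdsWithin_of_mem_nhds (Iio_mem_nhds (zero_lt_one (α := ℝ)))] with ε hε hε1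
    filter_upwards [hpos] with x hx
    rw [Real.norm_eq_abs]
    rcases le_total ε x with h | h
    · rw [max_eq_left h]
    · rw [max_eq_right h]
      have h1 : Real.log x ≤ Real.log ε := Real.log_le_log hx.1 h
      have h2 : Real.log ε ≤ 0 := Real.log_nonpos (le_of_lt hε) (le_of_lt hε1)
      rw [abs_of_nonpos h2, abs_of_nonpos (h1.trans h2)]
      linarith
  · filter_upwards [hpos] with x hx
    refine tendsto_const_nhds.congr' ?_
    filter_upwards [mem_nhdsWithin_of_mem_nhds (Iio_mem_nhds hx.1)] with ε hε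
    rw [max_eq_left (le_of_lt hε)]

variable {G : Type} [Group G] (C : Res G)

theorem spec_fin (p : ℕ) : IsFiniteMeasure (C.spec p) := (isSpec_spec C p).fin

theorem spec_zero {p : ℕ} (h : C.b2 p = 0) : C.spec p {0} = 0 := by
  have := spec_fin C p
  unfold Res.b2 at h
  exact (measureReal_eq_zero_iff).mp h

/-- The logarithm of the Fuglede-Kadison determinant of the `p`-th Laplacian `Δ_p` is the limit of
the von Neumann traces of `log (max Δ_p ε)`, if `Δ_p` is injective and of determinant class. -/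
theorem ldet_lim (p : ℕ) (h : C.b2 p = 0) (hint : IntegrableOn Real.log (Set.Ioi 0) (C.spec p)) :
    Tendsto (fun ε : ℝ => trN (cfc (fun x => Real.log (max x ε)) (rop (C.lapp p)))) (𝓝[>] 0)
      (𝓝 (C.ldet p : ℂ)) := by
  have := spec_fin C p
  obtain ⟨K, hK⟩ := (isSpec_spec C p).supp
  have h1 := logmax_lim hK (spec_zero C h) hint
  have h2 := (Complex.continuous_ofReal.tendsto _).comp h1
  refine h2.congr' ?_
  filter_upwards [self_mem_nhdsWithin] with ε hε
  exact (opr C p (logmax_cont hε)).symm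

end Pool.Agent.LT.H91
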