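import Pool.Agent.Helper91_LT.Uni

/-!
# LT: the Hausdorff moment problem.
-/

set_option autoImplicit false

namespace Pool.Agent.LT.H91

open MeasureTheory Filter Topology

section

variable {u : ℕ → ℕ → ℝ}

theorem sum_choose (hr : ∀ a b, u (a + 1) b + u a (b + 1) = u a b) (m n : ℕ) :
    ∑ k ∈ Finset.range (n + 1), (n.choose k : ℝ) * u (k + m) (n - k) = u m 0 := by
  induction n generalizing m with
  | zero => simp
  | succ n ih =>
    have h1 : ∑ k ∈ Finset.range (n + 1 + 1), ((n + 1).choose k : ℝ) * u (k + m) (n + 1 - k) =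
        ∑ k ∈ Finset.range (n + 1), (n.choose k : ℝ) * u (k + 1 + m) (n - k) +
        ∑ k ∈ Finset.range (n + 1), (n.choose k : ℝ) * u (k + m) (n + 1 - k) := by
      rw [Finset.sum_range_succ']
      have h2 : ∀ k ∈ Finset.range (n + 1), ((n + 1).choose (k + 1) : ℝ) *
          u (k + 1 + m) (n + 1 - (k + 1)) = (n.choose k : ℝ) * u (k + 1 + m) (n - k) +
          (n.choose (k + 1) : ℝ) * u (k + 1 + m) (n + 1 - (k + 1)) := by
        intro k _
        rw [Nat.choose_succ_succ, Nat.add_sub_add_right]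
        push_cast
        ring
      rw [Finset.sum_congr rfl h2, Finset.sum_add_distrib, add_assoc]
      congr 1
      rw [Finset.sum_range_succ' (fun k => (n.choose k : ℝ) * u (k + m) (n + 1 - k)),
        Finset.sum_range_succ]
      simp
    rw [h1, ← Finset.sum_add_distrib, ← ih m]
    refine Finset.sum_congr rfl fun k hk => ?_
    have hk' : k ≤ n := Nat.lt_succ_iff.mp (Finset.mem_range.mp hk)
    have h3 : n + 1 - k = (n - k) + 1 := by omega
    rw [h3, ← mul_add]
    congr 1
    rw [← hr (k + m) (n - k)]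
    congr 2
    ring

theorem sum_choose_desc (hr : ∀ a b, u (a + 1) b + u a (b + 1) = u a b) {m n : ℕ} (hmn : m ≤ n) :
    ∑ k ∈ Finset.range (n + 1), (n.choose k : ℝ) * u k (n - k) *
      ((k.descFactorial m : ℝ) / (n.descFactorial m : ℝ)) = u m 0 := by
  have hpos : (0 : ℝ) < (n.descFactorial m : ℝ) := by
    exact_mod_cast Nat.descFactorial_pos.mpr hmn
  rw [← sum_choose hr m (n - m)]
  have h0 : n + 1 = m + (n - m + 1) := by omega
  rw [h0, Finset.sum_range_add]
  have h2 : ∑ x ∈ Finset.range m, (n.choose x : ℝ) * u x (n - x) *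
      ((x.descFactorial m : ℝ) / (n.descFactorial m : ℝ)) = 0 := by
    refine Finset.sum_eq_zero fun x hx => ?_
    rw [Nat.descFactorial_of_lt (Finset.mem_range.mp hx)]
    simp
  rw [h2, zero_add]
  refine Finset.sum_congr rfl fun j hj => ?_
  have hj' : j ≤ n - m := Nat.lt_succ_iff.mp (Finset.mem_range.mp hj)
  have h3 : n - (m + j) = n - m - j := by omega
  rw [h3, add_comm j m]
  have h4 : (n.choose (m + j)) * ((m + j).descFactorial m) =
      n.descFactorial m * (n - m).choose j := by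
    rw [Nat.descFactorial_eq_factorial_mul_choose, Nat.descFactorial_eq_factorial_mul_choose]
    have := Nat.choose_mul (n := n) (k := m + j) (s := m) (by omega)
    rw [Nat.add_sub_cancel_left] at this
    calc n.choose (m + j) * (m.factorial * (m + j).choose m)
        = m.factorial * (n.choose (m + j) * (m + j).choose m) := by ring
      _ = m.factorial * (n.choose m * (n - m).choose j) := by rw [this]
      _ = _ := by ring
  have h5 : (n.choose (m + j) : ℝ) * ((m + j).descFactorial m : ℝ) =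
      (n.descFactorial m : ℝ) * ((n - m).choose j : ℝ) := by exact_mod_cast h4
  field_simp
  linear_combination u (m + j) (n - m - j) * h5

theorem desc_near (m : ℕ) : ∀ ε : ℝ, 0 < ε → ∃ N : ℕ, m ≤ N ∧ ∀ n : ℕ, N ≤ n → ∀ k : ℕ, k ≤ n →
    |((k : ℝ) / n) ^ m - (k.descFactorial m : ℝ) / (n.descFactorial m : ℝ)| ≤ ε := by
  induction m with
  | zero =>
    intro ε hε
    exact ⟨0, le_rfl, fun n _ k _ => by simpa using hε.le⟩
  | succ m ih =>
    intro ε hε
    obtain ⟨N1, hN1, h1⟩ := ih (ε / 2) (by positivity)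
    obtain ⟨N2, hN2⟩ := exists_nat_gt (2 * (m : ℝ) / ε)
    refine ⟨N1 + N2 + m + 1, by omega, fun n hn k hk => ?_⟩
    have hmn : m < n := by omega
    have hn0 : (0 : ℝ) < n := by exact_mod_cast (by omega : 0 < n)
    have hnm : (0 : ℝ) < (n : ℝ) - m := by
      have : (m : ℝ) < n := by exact_mod_cast hmn
      linarith
    have hx0 : 0 ≤ (k : ℝ) / n := by positivity
    have hx1 : (k : ℝ) / n ≤ 1 := by
      rw [div_le_one hn0]
      exact_mod_cast hk
    have h2 := h1 n (by omega) k hk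
    rw [Nat.descFactorial_succ, Nat.descFactorial_succ]
    push_cast
    rw [Nat.cast_sub hmn.le]
    set y : ℝ := ((k - m : ℕ) : ℝ) / ((n : ℝ) - m) with hy
    have hy0 : 0 ≤ y := by positivity
    have hkm : ((k - m : ℕ) : ℝ) ≤ (n : ℝ) - m := by
      rw [← Nat.cast_sub hmn.le]
      exact_mod_cast Nat.sub_le_sub_right hk m
    have hy1 : y ≤ 1 := by
      rw [hy, div_le_one hnm]
      exact hkm
    have h3 : |(k : ℝ) / n - y| ≤ ε / 2 := by
      have h4 : (m : ℝ) / (n - m) ≤ ε / 2 := by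
        rw [div_le_iff₀ hnm]
        have h5 : (N2 : ℝ) ≤ (n : ℝ) - m := by
          rw [le_sub_iff_add_le]
          exact_mod_cast (by omega : N2 + m ≤ n)
        have h6 : 2 * (m : ℝ) / ε ≤ (n : ℝ) - m := by linarith
        rw [div_le_iff₀ hε] at h6
        linarith
      refine le_trans ?_ h4
      rcases le_or_gt m k with hmk | hmk
      · rw [hy, Nat.cast_sub hmk]
        have h7 : (k : ℝ) / n - ((k : ℝ) - m) / (n - m) = m * (n - k) / (n * (n - m)) := by
          field_simp
          ring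
        have hkn : (0 : ℝ) ≤ (n : ℝ) - k := by
          have : (k : ℝ) ≤ n := by exact_mod_cast hk
          linarith
        rw [h7, abs_of_nonneg (by positivity), div_le_div_iff₀ (by positivity) hnm]
        have : (n : ℝ) - k ≤ n := by linarith [(Nat.cast_nonneg k : (0 : ℝ) ≤ k)]
        calc (m : ℝ) * (n - k) * (n - m) ≤ m * n * (n - m) := by gcongr
          _ = m * (n * (n - m)) := by ring
      · have h8 : k - m = 0 := by omega
        rw [hy, h8]
        simp only [Nat.cast_zero, zero_div, sub_zero]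
        rw [abs_of_nonneg hx0, div_le_div_iff₀ hn0 hnm]
        have h9 : (k : ℝ) ≤ m := by exact_mod_cast hmk.le
        have h10 : (n : ℝ) - m ≤ n := by linarith [(Nat.cast_nonneg m : (0 : ℝ) ≤ m)]
        calc (k : ℝ) * (n - m) ≤ m * (n - m) := by gcongr
          _ ≤ m * n := by gcongr
    have h11 : ((k : ℝ) / n) ^ (m + 1) - ((k - m : ℕ) : ℝ) * (k.descFactorial m : ℝ) /
        (((n : ℝ) - m) * (n.descFactorial m : ℝ)) =
        ((k : ℝ) / n - y) * ((k : ℝ) / n) ^ m + y * (((k : ℝ) / n) ^ m -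
          (k.descFactorial m : ℝ) / (n.descFactorial m : ℝ)) := by
      rw [mul_div_mul_comm, ← hy]
      ring
    rw [h11]
    refine (abs_add_le _ _).trans ?_
    rw [abs_mul, abs_mul, abs_of_nonneg hy0, abs_of_nonneg (pow_nonneg hx0 m)]
    have h12 : ((k : ℝ) / n) ^ m ≤ 1 := pow_le_one₀ hx0 hx1
    calc |(k : ℝ) / n - y| * ((k : ℝ) / n) ^ m + y * |((k : ℝ) / n) ^ m -
          (k.descFactorial m : ℝ) / (n.descFactorial m : ℝ)|
        ≤ (ε / 2) * 1 + 1 * (ε / 2) := by gcongr
      _ = ε := by ring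

/-- The discrete approximations of the measure. -/
noncomputable def disc (u : ℕ → ℕ → ℝ) (n : ℕ) : Measure ℝ :=
  ∑ k ∈ Finset.range (n + 1), ENNReal.ofReal ((n.choose k : ℝ) * u k (n - k)) •
    Measure.dirac ((k : ℝ) / n)

instance (n : ℕ) : IsFiniteMeasure (disc u n) := by
  unfold disc
  constructor
  rw [Measure.finsetSum_apply]
  simp only [Measure.smul_apply, measure_univ, smul_eq_mul, mul_one]
  exact ENNReal.sum_lt_top.mpr fun _ _ => ENNReal.ofReal_lt_top

theorem disc_integral (h0 : ∀ a b, 0 ≤ u a b) (n : ℕ) (f : ℝ → ℝ) :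
    ∫ x, f x ∂(disc u n) =
      ∑ k ∈ Finset.range (n + 1), (n.choose k : ℝ) * u k (n - k) * f ((k : ℝ) / n) := by
  unfold disc
  rw [integral_finsetSum_measure]
  · refine Finset.sum_congr rfl fun k _ => ?_
    rw [integral_smul_measure, integral_dirac, ENNReal.toReal_ofReal (by have := h0 k (n - k); positivity)]
    rfl
  · intro k _
    refine Integrable.smul_measure ?_ ENNReal.ofReal_ne_top
    exact integrable_dirac (by simp)

theorem disc_supp (n : ℕ) : disc u n (Set.Icc 0 1)ᶜ = 0 := by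
  unfold disc
  rw [Measure.finsetSum_apply]
  refine Finset.sum_eq_zero fun k hk => ?_
  have hk' : k ≤ n := Nat.lt_succ_iff.mp (Finset.mem_range.mp hk)
  rw [Measure.smul_apply, Measure.dirac_apply' _ measurableSet_Icc.compl]
  have : (k : ℝ) / n ∈ Set.Icc (0 : ℝ) 1 := by
    constructor
    · positivity
    · exact div_le_one_of_le₀ (by exact_mod_cast hk') (by positivity)
  simp [this.1, this.2]

theorem hausdorff01 (h0 : ∀ a b, 0 ≤ u a b) (hr : ∀ a b, u (a + 1) b + u a (b + 1) = u a b) :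
    ∃ μ : Measure ℝ, IsFiniteMeasure μ ∧ μ (Set.Icc 0 1)ᶜ = 0 ∧ ∀ k : ℕ,
      ∫ x, x ^ k ∂μ = u k 0 := by
  let ν : ℕ → FiniteMeasure ℝ := fun n => ⟨disc u n, inferInstance⟩
  have hmass : ∀ n, (ν n).mass = (u 0 0).toNNReal := by
    intro n
    have h1 : (disc u n).real Set.univ = u 0 0 := by
      have h2 := disc_integral h0 n (fun _ => 1)
      rw [integral_const, smul_eq_mul, mul_one] at h2
      rw [h2]
      simpa using sum_choose hr 0 n
    apply NNReal.coe_injective
    rw [Real.coe_toNNReal _ (h0 0 0), ← h1]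
    rfl
  have hcomp := isCompact_setOfPred_finiteMeasure_le_of_isCompact (E := ℝ) (u 0 0).toNNReal
    (isCompact_Icc (a := (0 : ℝ)) (b := 1))
  let F : Ultrafilter (FiniteMeasure ℝ) := (Ultrafilter.of (atTop : Filter ℕ)).map ν
  have hF : (F : Filter (FiniteMeasure ℝ)) ≤ 𝓟 {μ : FiniteMeasure ℝ | μ.mass ≤ (u 0 0).toNNReal ∧
      μ (Set.Icc (0 : ℝ) 1)ᶜ = 0} := by
    rw [le_principal_iff]
    change ν ⁻¹' _ ∈ (Ultrafilter.of (atTop : Filter ℕ) : Filter ℕ)
    refine Filter.mem_of_superset Filter.univ_mem fun n _ => ?_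
    refine ⟨(hmass n).le, ?_⟩
    have := disc_supp (u := u) n
    rw [FiniteMeasure.coeFn_def]
    change (disc u n (Set.Icc 0 1)ᶜ).toNNReal = 0
    rw [this]
    rfl
  obtain ⟨μ, hμ, hlim⟩ := hcomp.ultrafilter_le_nhds F hF
  have ht : Tendsto ν (Ultrafilter.of (atTop : Filter ℕ) : Filter ℕ) (𝓝 μ) := hlim
  have hsupp : (μ : Measure ℝ) (Set.Icc 0 1)ᶜ = 0 := by
    have h3 := hμ.2
    rw [FiniteMeasure.coeFn_def] at h3
    rcases (ENNReal.toNNReal_eq_zero_iff _).mp h3 with h4 | h4
    · exact h4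
    · exact absurd h4 (measure_ne_top _ _)
  refine ⟨μ, inferInstance, hsupp, fun m => ?_⟩
  -- the bounded continuous function
  let g : BoundedContinuousFunction ℝ ℝ := BoundedContinuousFunction.ofNormedAddCommGroup
    (fun x : ℝ => (max 0 (min x 1)) ^ m) (by fun_prop) 1 (by
      intro x
      have h5 : 0 ≤ max 0 (min x 1) := le_max_left _ _
      have h6 : max 0 (min x 1) ≤ 1 := max_le zero_le_one (min_le_right _ _)
      rw [Real.norm_eq_abs, abs_of_nonneg (pow_nonneg h5 m)]
      exact pow_le_one₀ h5 h6)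
  have hg : ∀ x ∈ Set.Icc (0 : ℝ) 1, g x = x ^ m := by
    intro x hx
    change (max 0 (min x 1)) ^ m = x ^ m
    rw [min_eq_left hx.2, max_eq_right hx.1]
  have h7 := (FiniteMeasure.tendsto_iff_forall_integral_tendsto.mp ht) g
  have h8 : ∫ x, g x ∂(μ : Measure ℝ) = ∫ x, x ^ m ∂(μ : Measure ℝ) := by
    refine integral_congr_ae ?_
    filter_upwards [ae_mem hsupp] with x hx using hg x hx
  have h9 : Tendsto (fun n => ∫ x, g x ∂(disc u n)) atTop (𝓝 (u m 0)) := by
    rw [Metric.tendsto_atTop]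
    intro ε hε
    obtain ⟨N, hmN, hN⟩ := desc_near m (ε / (2 * (u 0 0 + 1))) (by have := h0 0 0; positivity)
    refine ⟨N, fun n hn => ?_⟩
    rw [Real.dist_eq, disc_integral h0, ← sum_choose_desc hr (hmN.trans hn),
      ← Finset.sum_sub_distrib]
    have h10 : ∀ k ∈ Finset.range (n + 1), |(n.choose k : ℝ) * u k (n - k) * g ((k : ℝ) / n) -
        (n.choose k : ℝ) * u k (n - k) * ((k.descFactorial m : ℝ) / (n.descFactorial m : ℝ))| ≤
        (n.choose k : ℝ) * u k (n - k) * (ε / (2 * (u 0 0 + 1))) := by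
      intro k hk
      have hk' : k ≤ n := Nat.lt_succ_iff.mp (Finset.mem_range.mp hk)
      have h11 : (k : ℝ) / n ∈ Set.Icc (0 : ℝ) 1 :=
        ⟨by positivity, div_le_one_of_le₀ (by exact_mod_cast hk') (by positivity)⟩
      rw [hg _ h11, ← mul_sub, abs_mul, abs_of_nonneg (by have := h0 k (n - k); positivity)]
      exact mul_le_mul_of_nonneg_left (hN n hn k hk') (by have := h0 k (n - k); positivity)
    have h12 := (Finset.abs_sum_le_sum_abs _ _).trans (Finset.sum_le_sum h10)
    rw [← Finset.sum_mul] at h12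
    have h13 : ∑ k ∈ Finset.range (n + 1), (n.choose k : ℝ) * u k (n - k) = u 0 0 := by
      simpa using sum_choose hr 0 n
    rw [h13] at h12
    refine lt_of_le_of_lt h12 ?_
    have h14 := h0 0 0
    have h15 : u 0 0 * (ε / (2 * (u 0 0 + 1))) = (u 0 0 / (u 0 0 + 1)) * (ε / 2) := by
      field_simp
    rw [h15]
    have h16 : u 0 0 / (u 0 0 + 1) ≤ 1 := by
      rw [div_le_one (by positivity)]
      linarith
    have h17 : (u 0 0 / (u 0 0 + 1)) * (ε / 2) ≤ 1 * (ε / 2) := by gcongr
    linarith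
  have h18 : Tendsto (fun n => ∫ x, g x ∂(ν n : Measure ℝ))
      (Ultrafilter.of (atTop : Filter ℕ) : Filter ℕ) (𝓝 (u m 0)) :=
    h9.mono_left (Ultrafilter.of_le _)
  rw [← h8]
  exact tendsto_nhds_unique h7 h18

end

theorem hausdorff {w : ℕ → ℕ → ℝ} {K : ℝ} (hK : 0 < K) (h0 : ∀ a b, 0 ≤ w a b)
    (hr : ∀ a b, w (a + 1) b + w a (b + 1) = K * w a b) :
    ∃ μ : Measure ℝ, IsFiniteMeasure μ ∧ μ (Set.Icc 0 K)ᶜ = 0 ∧ ∀ k : ℕ,
      ∫ x, x ^ k ∂μ = w k 0 := by
  obtain ⟨μ, hfin, hsupp, hmom⟩ := hausdorff01 (u := fun a b => w a b / K ^ (a + b))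
    (fun a b => by have := h0 a b; positivity) (fun a b => by
      have h1 := hr a b
      rw [show a + 1 + b = a + b + 1 by ring, show a + (b + 1) = a + b + 1 by ring, ← add_div, h1,
        pow_succ']
      field_simp)
  refine ⟨μ.map (fun x => K * x), ?_, ?_, fun k => ?_⟩
  · exact Measure.isFiniteMeasure_map μ _
  · rw [Measure.map_apply (by fun_prop) measurableSet_Icc.compl]
    refine measure_mono_null ?_ hsupp
    intro x hx hx'
    apply hx
    exact ⟨mul_nonneg hK.le hx'.1, mul_le_of_le_one_right hK.le hx'.2⟩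
  · rw [integral_map (by fun_prop) (by fun_prop)]
    simp_rw [mul_pow]
    rw [integral_const_mul, hmom]
    simp only [add_zero]
    field_simp

end Pool.Agent.LT.H91
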