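import Pool.Agent.Helper91_LT.GR
import Pool.Agent.Helper91_LT.Haus

/-!
# LT: SPE. Existence of the spectral measures.
-/

set_option autoImplicit false
set_option linter.unusedSectionVars false

namespace Pool.Agent.LT.H91

open Matrix MeasureTheory Polynomial

variable {G : Type} [Group G] {ι : Type} [Fintype ι] [DecidableEq ι]

theorem adj_zsmul (n : ℤ) (A : Matrix ι ι (MonoidAlgebra ℤ G)) : adj (n • A) = n • adj A := by
  ext x y : 1
  simp only [adj, Matrix.smul_apply]
  exact map_zsmul (inv1Hom (G := G)) n (A y x)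

theorem adj_aeval (A : Matrix ι ι (MonoidAlgebra ℤ G)) (p : ℤ[X]) :
    adj (aeval A p) = aeval (adj A) p := by
  induction p using Polynomial.induction_on' with
  | add p q hp hq => rw [map_add, map_add, adj_add, hp, hq]
  | monomial n a =>
    rw [← smul_X_eq_monomial, map_zsmul, map_zsmul, map_pow, map_pow, aeval_X, aeval_X, adj_zsmul,
      adj_pow]

theorem spe_gen (A : Matrix ι ι (MonoidAlgebra ℤ G)) (hadj : adj A = A)
    (hpos : ∀ B : Matrix ι ι (MonoidAlgebra ℤ G), 0 ≤ tr1 (B * A * adj B)) :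
    ∃ μ, IsSpec A μ := by
  obtain ⟨K, hK1, hK⟩ := exists_bound_mat A
  let L : ℤ[X] → ℤ := fun f => tr1 (aeval A f)
  have hLadd : ∀ f g, L (f + g) = L f + L g := fun f g => by
    change tr1 (aeval A (f + g)) = _
    rw [map_add, tr1_add]
  have hLK : ∀ f, L (C K * f) = K * L f := fun f => by
    change tr1 (aeval A (C K * f)) = _
    rw [← smul_eq_C_mul, map_zsmul, tr1_zsmul]
  have hadj' : ∀ f : ℤ[X], adj (aeval A f) = aeval A f := fun f => by rw [adj_aeval, hadj]
  have h00 : ∀ f : ℤ[X], 0 ≤ L (f * f) := fun f => by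
    have := tr1_mul_adj_nonneg (aeval A f)
    rw [hadj', ← map_mul] at this
    exact this
  have h10 : ∀ f : ℤ[X], 0 ≤ L (f * X * f) := fun f => by
    have := hpos (aeval A f)
    rw [hadj'] at this
    change 0 ≤ tr1 (aeval A (f * X * f))
    rw [map_mul, map_mul, aeval_X]
    exact this
  have h01 : ∀ f : ℤ[X], 0 ≤ L (f * (C K - X) * f) := fun f => by
    have h1 := hK (aeval A f)
    rw [hadj'] at h1
    have h2 : L (f * X * f) = tr1 (aeval A f * A * aeval A f) := by
      change tr1 (aeval A (f * X * f)) = _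
      rw [map_mul, map_mul, aeval_X]
    have h3 : L (f * f) = tr1 (aeval A f * aeval A f) := by
      change tr1 (aeval A (f * f)) = _
      rw [map_mul]
    rw [← h2, ← h3] at h1
    have h4 : C K * (f * f) = f * (C K - X) * f + f * X * f := by ring
    have h5 := congrArg L h4
    rw [hLK, hLadd] at h5
    linarith
  have h11 : ∀ f : ℤ[X], 0 ≤ L (f * (X * (C K - X)) * f) := fun f => by
    have h1 := h01 (f * X)
    have h2 := h10 (f * (C K - X))
    have h3 : C K * (f * (X * (C K - X)) * f) = (f * X) * (C K - X) * (f * X) +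
        (f * (C K - X)) * X * (f * (C K - X)) := by ring
    have h4 := congrArg L h3
    rw [hLK, hLadd] at h4
    have h5 : 0 ≤ K * L (f * (X * (C K - X)) * f) := by rw [h4]; linarith
    by_contra hneg
    push Not at hneg
    nlinarith
  have hw : ∀ a b : ℕ, 0 ≤ L (X ^ a * (C K - X) ^ b) := by
    intro a b
    obtain ⟨a', ha | ha⟩ := Nat.even_or_odd' a <;> obtain ⟨b', hb | hb⟩ := Nat.even_or_odd' b
    · have h1 : (X : ℤ[X]) ^ a * (C K - X) ^ b = (X ^ a' * (C K - X) ^ b') *
        (X ^ a' * (C K - X) ^ b') := by rw [ha, hb]; ring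
      rw [h1]
      exact h00 _
    · have h1 : (X : ℤ[X]) ^ a * (C K - X) ^ b = (X ^ a' * (C K - X) ^ b') * (C K - X) *
        (X ^ a' * (C K - X) ^ b') := by rw [ha, hb]; ring
      rw [h1]
      exact h01 _
    · have h1 : (X : ℤ[X]) ^ a * (C K - X) ^ b = (X ^ a' * (C K - X) ^ b') * X *
        (X ^ a' * (C K - X) ^ b') := by rw [ha, hb]; ring
      rw [h1]
      exact h10 _
    · have h1 : (X : ℤ[X]) ^ a * (C K - X) ^ b = (X ^ a' * (C K - X) ^ b') * (X * (C K - X)) *
        (X ^ a' * (C K - X) ^ b') := by rw [ha, hb]; ring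
      rw [h1]
      exact h11 _
  obtain ⟨μ, hfin, hsupp, hmom⟩ := hausdorff (w := fun a b => (L (X ^ a * (C K - X) ^ b) : ℝ))
    (K := (K : ℝ)) (by exact_mod_cast (by linarith : (0 : ℤ) < K))
    (fun a b => by exact_mod_cast hw a b) (fun a b => by
      have h1 : (C K : ℤ[X]) * (X ^ a * (C K - X) ^ b) =
        X ^ (a + 1) * (C K - X) ^ b + X ^ a * (C K - X) ^ (b + 1) := by ring
      have h2 := congrArg L h1
      rw [hLK, hLadd] at h2
      exact_mod_cast h2.symm)
  refine ⟨μ, hfin, ⟨K, hsupp⟩, fun k => ?_⟩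
  rw [hmom k]
  have h1 : L (X ^ k * (C K - X) ^ 0) = tr1 (A ^ k) := by
    change tr1 (aeval A (X ^ k * (C K - X) ^ 0)) = _
    rw [pow_zero, mul_one, map_pow, aeval_X]
  exact_mod_cast h1

theorem spe : SpeStmt := by
  intro G _ C p
  classical
  -- the two halves of the Laplacian
  let P : Matrix {x // C.dim x = p} C.X (MonoidAlgebra ℤ G) := fun x y => if x.1 = y then 1 else 0
  have hP : C.lapp p = P * C.lap * adj P := by
    ext x y : 1
    have h1 : ∀ z, (P * C.lap) x z = C.lap x.1 z := fun z => by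
      rw [Matrix.mul_apply]
      simp only [P, ite_mul, one_mul, zero_mul, Finset.sum_ite_eq,
        Finset.mem_univ, if_true]
    rw [Matrix.mul_apply]
    simp only [h1, P, adj, apply_ite inv1, inv1_one, inv1_zero, mul_ite, mul_one, mul_zero,
      Finset.sum_ite_eq, Finset.mem_univ, if_true]
    rfl
  have hlap : adj C.lap = C.lap := by
    unfold Res.lap
    rw [adj_add, adj_mul, adj_mul, adj_adj]
  have hadj : adj (C.lapp p) = C.lapp p := by
    rw [hP, adj_mul, adj_mul, adj_adj, hlap, Matrix.mul_assoc]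
  refine spe_gen (C.lapp p) hadj fun B => ?_
  have h1 : B * C.lapp p * adj B = (B * P * C.bd) * adj (B * P * C.bd) +
      (B * P * adj C.bd) * adj (B * P * adj C.bd) := by
    rw [hP]
    unfold Res.lap
    simp only [adj_mul, adj_adj, Matrix.mul_add, Matrix.add_mul, Matrix.mul_assoc]
  rw [h1, tr1_add]
  exact add_nonneg (tr1_mul_adj_nonneg _) (tr1_mul_adj_nonneg _)

end Pool.Agent.LT.H91
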