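import Pool.Agent.Helper61_LT.Stmts

/-!
# LT: UNI and LIM. Measures with bounded support, moments, Weierstrass.
-/

set_option autoImplicit false

namespace Pool.Agent.LT.H91

open Matrix MeasureTheory Polynomial

theorem ae_mem {μ : Measure ℝ} {K : ℝ} (h : μ (Set.Icc 0 K)ᶜ = 0) :
    ∀ᵐ x ∂μ, x ∈ Set.Icc (0 : ℝ) K := by
  rw [ae_iff]
  exact h

theorem integrable_of_supp {μ : Measure ℝ} [IsFiniteMeasure μ] {K : ℝ}
    (h : μ (Set.Icc 0 K)ᶜ = 0) {f : ℝ → ℝ} (hf : Continuous f) : Integrable f μ := by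
  obtain ⟨C, hC⟩ := (isCompact_Icc (a := (0 : ℝ)) (b := K)).exists_bound_of_continuousOn
    hf.continuousOn
  refine Integrable.of_bound hf.aestronglyMeasurable C ?_
  filter_upwards [ae_mem h] with x hx using hC x hx

theorem integral_poly {μ : Measure ℝ} [IsFiniteMeasure μ] {K : ℝ}
    (h : μ (Set.Icc 0 K)ᶜ = 0) (p : ℝ[X]) :
    ∫ x, p.eval x ∂μ = p.sum fun k a => a * ∫ x, x ^ k ∂μ := by
  rw [Polynomial.sum_def]
  simp_rw [Polynomial.eval_eq_sum, Polynomial.sum_def]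
  rw [integral_finsetSum]
  · refine Finset.sum_congr rfl fun k _ => ?_
    rw [integral_const_mul]
  · intro k _
    exact (integrable_of_supp h (continuous_pow k)).const_mul _

theorem approx {μ : Measure ℝ} [IsFiniteMeasure μ] {K : ℝ}
    (h : μ (Set.Icc 0 K)ᶜ = 0) {f : ℝ → ℝ} (hf : Continuous f) (p : ℝ[X]) {ε : ℝ}
    (he : ∀ x ∈ Set.Icc (0 : ℝ) K, |p.eval x - f x| ≤ ε) :
    |∫ x, p.eval x ∂μ - ∫ x, f x ∂μ| ≤ ε * μ.real Set.univ := by
  rw [← integral_sub (integrable_of_supp h p.continuous) (integrable_of_supp h hf)]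
  have := norm_integral_le_of_norm_le_const (μ := μ) (f := fun x => p.eval x - f x) (C := ε)
    (by filter_upwards [ae_mem h] with x hx using he x hx)
  simpa using this

theorem uni_aux {μ ν : Measure ℝ} [IsFiniteMeasure μ] [IsFiniteMeasure ν] {K : ℝ}
    (hμ : μ (Set.Icc 0 K)ᶜ = 0) (hν : ν (Set.Icc 0 K)ᶜ = 0)
    (hm : ∀ k : ℕ, ∫ x, x ^ k ∂μ = ∫ x, x ^ k ∂ν) : μ = ν := by
  apply ext_of_forall_integral_eq_of_IsFiniteMeasure
  intro f
  have hf : Continuous (fun x => f x) := f.continuous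
  by_contra hne
  have hpos : 0 < |∫ x, f x ∂μ - ∫ x, f x ∂ν| := abs_pos.mpr (sub_ne_zero.mpr hne)
  set D := |∫ x, f x ∂μ - ∫ x, f x ∂ν| with hD
  set c := μ.real Set.univ + ν.real Set.univ + 1 with hc
  have hc0 : 0 < c := by positivity
  obtain ⟨p, hp⟩ := exists_polynomial_near_of_continuousOn 0 K (fun x => f x) hf.continuousOn
    (D / (2 * c)) (by positivity)
  have hp' : ∀ x ∈ Set.Icc (0 : ℝ) K, |p.eval x - f x| ≤ D / (2 * c) := fun x hx => (hp x hx).le
  have h1 := approx hμ hf p hp'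
  have h2 := approx hν hf p hp'
  have h3 : ∫ x, p.eval x ∂μ = ∫ x, p.eval x ∂ν := by
    rw [integral_poly hμ, integral_poly hν]
    simp only [Polynomial.sum_def, hm]
  rw [h3] at h1
  have h4 : D ≤ D / (2 * c) * μ.real Set.univ + D / (2 * c) * ν.real Set.univ := by
    calc D = |(∫ x, p.eval x ∂ν - ∫ x, f x ∂ν) - (∫ x, p.eval x ∂ν - ∫ x, f x ∂μ)| := by
          rw [hD]; congr 1; ring
      _ ≤ |∫ x, p.eval x ∂ν - ∫ x, f x ∂ν| + |∫ x, p.eval x ∂ν - ∫ x, f x ∂μ| := abs_sub _ _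
      _ ≤ _ := by linarith
  have h5 : D / (2 * c) * μ.real Set.univ + D / (2 * c) * ν.real Set.univ ≤ D / 2 := by
    have : D / (2 * c) * μ.real Set.univ + D / (2 * c) * ν.real Set.univ = D / (2 * c) * (c - 1) := by
      rw [hc]; ring
    rw [this]
    have h6 : D / (2 * c) * (c - 1) ≤ D / (2 * c) * c := by
      apply mul_le_mul_of_nonneg_left _ (by positivity)
      linarith
    have h7 : D / (2 * c) * c = D / 2 := by field_simp
    linarith
  linarith

theorem uni : UniStmt := by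
  intro G _ X _ _ A μ ν hμ hν
  have := hμ.fin
  have := hν.fin
  obtain ⟨K1, h1⟩ := hμ.supp
  obtain ⟨K2, h2⟩ := hν.supp
  have h1' : μ (Set.Icc 0 (max K1 K2))ᶜ = 0 :=
    measure_mono_null (Set.compl_subset_compl.mpr (Set.Icc_subset_Icc_right (le_max_left _ _))) h1
  have h2' : ν (Set.Icc 0 (max K1 K2))ᶜ = 0 :=
    measure_mono_null (Set.compl_subset_compl.mpr (Set.Icc_subset_Icc_right (le_max_right _ _))) h2
  exact uni_aux h1' h2' fun k => by rw [hμ.mom, hν.mom]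

end Pool.Agent.LT.H91
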