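import Pool.Agent.Helper61_LT.Stmts

/-!
# LT: group ring basics: involution, trace, positivity.
-/

set_option autoImplicit false
set_option linter.unusedSectionVars false

namespace Pool.Agent.LT.H91

open Matrix MonoidAlgebra

variable {G : Type} [Group G]

theorem inv1_coeff (a : MonoidAlgebra ℤ G) (g : G) : (inv1 a).coeff g = a.coeff g⁻¹ := by
  have h := Finsupp.mapDomain_apply (f := fun g : G => g⁻¹) inv_injective a.coeff g⁻¹
  simp only [inv_inv] at h
  exact h

theorem inv1_add (a b : MonoidAlgebra ℤ G) : inv1 (a + b) = inv1 a + inv1 b := by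
  ext g
  simp [inv1_coeff]

theorem inv1_zero : inv1 (0 : MonoidAlgebra ℤ G) = 0 := by
  ext g
  simp [inv1_coeff]

theorem inv1_neg (a : MonoidAlgebra ℤ G) : inv1 (-a) = -inv1 a := by
  ext g
  simp [inv1_coeff]

theorem inv1_sub (a b : MonoidAlgebra ℤ G) : inv1 (a - b) = inv1 a - inv1 b := by
  ext g
  simp [inv1_coeff]

theorem inv1_inv1 (a : MonoidAlgebra ℤ G) : inv1 (inv1 a) = a := by
  ext g
  simp [inv1_coeff]

theorem inv1_single (g : G) (n : ℤ) : inv1 (single g n) = single g⁻¹ n := by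
  classical
  ext h
  rw [inv1_coeff, coeff_single, coeff_single, Finsupp.single_apply, Finsupp.single_apply]
  by_cases hg : g = h⁻¹
  · rw [if_pos hg, if_pos (by rw [hg, inv_inv])]
  · rw [if_neg hg, if_neg (fun h' => hg (by rw [← h', inv_inv]))]

theorem inv1_one : inv1 (1 : MonoidAlgebra ℤ G) = 1 := by
  rw [one_def, inv1_single, inv_one]

/-- The involution as an additive map. -/
noncomputable def inv1Hom : MonoidAlgebra ℤ G →+ MonoidAlgebra ℤ G where
  toFun := inv1
  map_zero' := inv1_zero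
  map_add' := inv1_add

theorem inv1_sum {ι : Type} (s : Finset ι) (f : ι → MonoidAlgebra ℤ G) :
    inv1 (∑ i ∈ s, f i) = ∑ i ∈ s, inv1 (f i) := map_sum inv1Hom f s

theorem inv1_mul (a b : MonoidAlgebra ℤ G) : inv1 (a * b) = inv1 b * inv1 a := by
  induction a using MonoidAlgebra.induction_linear with
  | zero => simp [inv1_zero]
  | add x y hx hy => rw [add_mul, inv1_add, inv1_add, hx, hy, mul_add]
  | single g n =>
    induction b using MonoidAlgebra.induction_linear with
    | zero => simp [inv1_zero]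
    | add x y hx hy => rw [mul_add, inv1_add, inv1_add, hx, hy, add_mul]
    | single h m =>
      rw [single_mul_single, inv1_single, inv1_single, inv1_single, single_mul_single, _root_.mul_inv_rev,
        mul_comm n m]

/-- The inner product. -/
noncomputable def ip (a b : MonoidAlgebra ℤ G) : ℤ := (a * inv1 b).coeff 1

theorem ip_eq (a b : MonoidAlgebra ℤ G) : ip a b = a.coeff.sum fun g n => n * b.coeff g := by
  unfold ip
  rw [coeff_mul_apply_left]
  refine Finsupp.sum_congr fun g _ => ?_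
  rw [mul_one, inv1_coeff, inv_inv]

theorem tau_comm (a b : MonoidAlgebra ℤ G) : (a * b).coeff 1 = (b * a).coeff 1 := by
  rw [coeff_mul_apply_left, coeff_mul_apply_right]
  refine Finsupp.sum_congr fun g _ => ?_
  rw [mul_one, one_mul, mul_comm]

theorem ip_self_nonneg (a : MonoidAlgebra ℤ G) : 0 ≤ ip a a := by
  rw [ip_eq]
  exact Finset.sum_nonneg fun g _ => mul_self_nonneg _

theorem ip_comm (a b : MonoidAlgebra ℤ G) : ip a b = ip b a := by
  have h : (inv1 (a * inv1 b)).coeff 1 = (a * inv1 b).coeff 1 := by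
    rw [inv1_coeff, inv_one]
  unfold ip
  rw [← h, inv1_mul, inv1_inv1]

theorem ip_add_left (a b c : MonoidAlgebra ℤ G) : ip (a + b) c = ip a c + ip b c := by
  unfold ip
  rw [add_mul]
  simp

theorem ip_sub_left (a b c : MonoidAlgebra ℤ G) : ip (a - b) c = ip a c - ip b c := by
  unfold ip
  rw [sub_mul]
  simp

theorem ip_sub_right (a b c : MonoidAlgebra ℤ G) : ip a (b - c) = ip a b - ip a c := by
  rw [ip_comm, ip_sub_left, ip_comm b, ip_comm c]

theorem ip_add_right (a b c : MonoidAlgebra ℤ G) : ip a (b + c) = ip a b + ip a c := by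
  rw [ip_comm, ip_add_left, ip_comm b, ip_comm c]

theorem two_ip_le (a b : MonoidAlgebra ℤ G) : 2 * |ip a b| ≤ ip a a + ip b b := by
  have h1 := ip_self_nonneg (a - b)
  have h2 := ip_self_nonneg (a + b)
  rw [ip_sub_left, ip_sub_right, ip_sub_right, ip_comm b a] at h1
  rw [ip_add_left, ip_add_right, ip_add_right, ip_comm b a] at h2
  rcases abs_cases (ip a b) with ⟨h, _⟩ | ⟨h, _⟩ <;> rw [h] <;> linarith

theorem exists_bound (a : MonoidAlgebra ℤ G) : ∃ K : ℤ, 0 ≤ K ∧ ∀ u v : MonoidAlgebra ℤ G,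
    |(u * a * inv1 v).coeff 1| ≤ K * (ip u u + ip v v) := by
  induction a using MonoidAlgebra.induction_linear with
  | zero => exact ⟨0, le_rfl, fun u v => by simp⟩
  | add x y hx hy =>
    obtain ⟨K1, h1, h1'⟩ := hx
    obtain ⟨K2, h2, h2'⟩ := hy
    refine ⟨K1 + K2, by linarith, fun u v => ?_⟩
    have h3 : (u * (x + y) * inv1 v).coeff 1 = (u * x * inv1 v).coeff 1 +
        (u * y * inv1 v).coeff 1 := by
      rw [mul_add, add_mul]
      simp
    rw [h3, add_mul]
    exact (abs_add_le _ _).trans (add_le_add (h1' u v) (h2' u v))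
  | single g n =>
    refine ⟨|n|, abs_nonneg _, fun u v => ?_⟩
    have h4 : u * single g n * inv1 v = n • (u * single g 1 * inv1 v) := by
      have : (single g n : MonoidAlgebra ℤ G) = n • single g 1 := by
        rw [MonoidAlgebra.smul_single]
        simp
      rw [this, mul_smul_comm, smul_mul_assoc]
    have h5 : ip (u * single g 1) (u * single g 1) = ip u u := by
      unfold ip
      rw [inv1_mul, inv1_single, mul_assoc, ← mul_assoc (single g 1), single_mul_single]
      simp [← one_def]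
    have h6 := two_ip_le (u * single g 1) v
    rw [h5] at h6
    have h7 : (u * single g 1 * inv1 v).coeff 1 = ip (u * single g 1) v := rfl
    rw [h4, coeff_smul_apply, h7, smul_eq_mul, abs_mul]
    have h8 : 0 ≤ |ip (u * single g 1) v| := abs_nonneg _
    exact mul_le_mul_of_nonneg_left (by linarith) (abs_nonneg _)

section mat

variable {X Y Z : Type} [Fintype X] [Fintype Y] [Fintype Z]

theorem adj_mul (A : Matrix X Y (MonoidAlgebra ℤ G)) (B : Matrix Y Z (MonoidAlgebra ℤ G)) :
    adj (A * B) = adj B * adj A := by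
  ext z x : 2
  simp only [adj, Matrix.mul_apply, inv1_sum, inv1_mul]

theorem adj_add (A B : Matrix X Y (MonoidAlgebra ℤ G)) : adj (A + B) = adj A + adj B := by
  ext z x : 2
  simp only [adj, Matrix.add_apply, inv1_add]

theorem adj_sub (A B : Matrix X Y (MonoidAlgebra ℤ G)) : adj (A - B) = adj A - adj B := by
  ext z x : 2
  simp only [adj, Matrix.sub_apply, inv1_sub]

theorem adj_adj (A : Matrix X Y (MonoidAlgebra ℤ G)) : adj (adj A) = A := by
  ext z x : 2
  simp only [adj, inv1_inv1]

theorem adj_one [DecidableEq X] : adj (1 : Matrix X X (MonoidAlgebra ℤ G)) = 1 := by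
  ext z x : 2
  simp only [adj, Matrix.one_apply]
  by_cases h : x = z
  · rw [if_pos h, if_pos h.symm, inv1_one]
  · rw [if_neg h, if_neg (Ne.symm h), inv1_zero]

theorem adj_pow [DecidableEq X] (A : Matrix X X (MonoidAlgebra ℤ G)) (k : ℕ) :
    adj (A ^ k) = adj A ^ k := by
  induction k with
  | zero => rw [pow_zero, pow_zero, adj_one]
  | succ k ih => rw [pow_succ, adj_mul, ih, pow_succ']

theorem tr1_comm (A : Matrix X Y (MonoidAlgebra ℤ G)) (B : Matrix Y X (MonoidAlgebra ℤ G)) :
    tr1 (A * B) = tr1 (B * A) := by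
  unfold tr1
  simp only [Matrix.mul_apply, coeff_sum, Finsupp.coe_finsetSum, Finset.sum_apply]
  rw [Finset.sum_comm]
  exact Finset.sum_congr rfl fun y _ => Finset.sum_congr rfl fun x _ => tau_comm _ _

theorem tr1_add (A B : Matrix X X (MonoidAlgebra ℤ G)) : tr1 (A + B) = tr1 A + tr1 B := by
  unfold tr1
  rw [← Finset.sum_add_distrib]
  exact Finset.sum_congr rfl fun x _ => by simp

theorem tr1_sub (A B : Matrix X X (MonoidAlgebra ℤ G)) : tr1 (A - B) = tr1 A - tr1 B := by
  unfold tr1
  rw [← Finset.sum_sub_distrib]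
  exact Finset.sum_congr rfl fun x _ => by simp

theorem tr1_zsmul (n : ℤ) (A : Matrix X X (MonoidAlgebra ℤ G)) : tr1 (n • A) = n * tr1 A := by
  unfold tr1
  rw [Finset.mul_sum]
  refine Finset.sum_congr rfl fun x _ => ?_
  rw [Matrix.smul_apply, coeff_smul_apply, smul_eq_mul]

theorem tr1_mul_adj (B : Matrix Y X (MonoidAlgebra ℤ G)) :
    tr1 (B * adj B) = ∑ i, ∑ x, ip (B i x) (B i x) := by
  unfold tr1
  simp only [Matrix.mul_apply, coeff_sum, Finsupp.coe_finsetSum, Finset.sum_apply]
  rfl

theorem tr1_mul_adj_nonneg (B : Matrix Y X (MonoidAlgebra ℤ G)) : 0 ≤ tr1 (B * adj B) := by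
  rw [tr1_mul_adj]
  exact Finset.sum_nonneg fun i _ => Finset.sum_nonneg fun x _ => ip_self_nonneg _

theorem exists_bound_mat (A : Matrix X X (MonoidAlgebra ℤ G)) : ∃ K : ℤ, 1 ≤ K ∧
    ∀ B : Matrix X X (MonoidAlgebra ℤ G), tr1 (B * A * adj B) ≤ K * tr1 (B * adj B) := by
  choose K hK0 hK using fun p : X × X => exists_bound (A p.1 p.2)
  refine ⟨2 * ∑ p, K p + 1, ?_, fun B => ?_⟩
  · have : 0 ≤ ∑ p, K p := Finset.sum_nonneg fun p _ => hK0 p
    linarith
  have h1 : tr1 (B * A * adj B) = ∑ i, ∑ y, ∑ x, (B i x * A x y * inv1 (B i y)).coeff 1 := by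
    unfold tr1
    simp only [Matrix.mul_apply, coeff_sum, Finsupp.coe_finsetSum, Finset.sum_apply,
      Finset.sum_mul, adj]
  have h2 : ∀ i x y, (B i x * A x y * inv1 (B i y)).coeff 1 ≤
      K (x, y) * (2 * ∑ z, ip (B i z) (B i z)) := by
    intro i x y
    have h3 := (le_abs_self _).trans (hK (x, y) (B i x) (B i y))
    refine h3.trans (mul_le_mul_of_nonneg_left ?_ (hK0 _))
    have h4 : ip (B i x) (B i x) ≤ ∑ z, ip (B i z) (B i z) :=
      Finset.single_le_sum (f := fun z => ip (B i z) (B i z)) (fun z _ => ip_self_nonneg _)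
        (Finset.mem_univ x)
    have h5 : ip (B i y) (B i y) ≤ ∑ z, ip (B i z) (B i z) :=
      Finset.single_le_sum (f := fun z => ip (B i z) (B i z)) (fun z _ => ip_self_nonneg _)
        (Finset.mem_univ y)
    linarith
  rw [h1]
  calc ∑ i, ∑ y, ∑ x, (B i x * A x y * inv1 (B i y)).coeff 1
      ≤ ∑ i, ∑ y, ∑ x, K (x, y) * (2 * ∑ z, ip (B i z) (B i z)) :=
        Finset.sum_le_sum fun i _ => Finset.sum_le_sum fun y _ => Finset.sum_le_sum fun x _ =>
          h2 i x y
    _ = (2 * ∑ p, K p) * tr1 (B * adj B) := by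
        rw [tr1_mul_adj, Fintype.sum_prod_type_right, Finset.mul_sum]
        refine Finset.sum_congr rfl fun i _ => ?_
        simp only [← Finset.sum_mul]
        ring
    _ ≤ (2 * ∑ p, K p + 1) * tr1 (B * adj B) := by
        have := tr1_mul_adj_nonneg B
        linarith

end mat

end Pool.Agent.LT.H91
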