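import Pool.Agent.Helper91_LT.Spe

/-!
# LT: OPR. The operators on `ℓ²(G)^X` given by right multiplication with matrices over `ℤ[G]`, the
von Neumann trace, and the identification of the spectral measure.
-/

set_option autoImplicit false
set_option linter.unusedSectionVars false

namespace Pool.Agent.LT.H91

open Matrix MeasureTheory

variable {G : Type} [Group G]

/-- The Hilbert space `ℓ²(G)`. -/
abbrev L2 (G : Type) : Type := lp (fun _ : G => ℂ) 2

theorem memℓp_comp (z : L2 G) (g : G) : Memℓp (fun h : G => z (h * g⁻¹)) 2 := by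
  have h1 := lp.memℓp z
  rw [memℓp_gen_iff (by norm_num)] at h1 ⊢
  exact (Equiv.mulRight g⁻¹).summable_iff.mpr h1

/-- Right translation by `g` on `ℓ²(G)`, as a linear map. -/
noncomputable def rtl (g : G) : L2 G →ₗ[ℂ] L2 G where
  toFun := fun z => ⟨fun h => z (h * g⁻¹), memℓp_comp z g⟩
  map_add' := fun _ _ => rfl
  map_smul' := fun _ _ => rfl

theorem rtl_norm (g : G) (z : L2 G) : ‖rtl g z‖ ≤ 1 * ‖z‖ := by
  have h1 := lp.norm_rpow_eq_tsum (p := 2) (by norm_num) (rtl g z)
  have h2 := lp.norm_rpow_eq_tsum (p := 2) (by norm_num) z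
  have h3 : ∑' h : G, ‖(rtl g z) h‖ ^ (2 : ENNReal).toReal =
      ∑' h : G, ‖z h‖ ^ (2 : ENNReal).toReal :=
    (Equiv.mulRight g⁻¹).tsum_eq (fun h => ‖z h‖ ^ (2 : ENNReal).toReal)
  rw [h3, ← h2] at h1
  rw [one_mul]
  simp only [ENNReal.toReal_ofNat, Real.rpow_ofNat] at h1
  exact (pow_le_pow_iff_left₀ (norm_nonneg _) (norm_nonneg _) two_ne_zero).mp h1.le

/-- Right translation by `g` on `ℓ²(G)`: `(rt g z) h = z (h g⁻¹)`. -/
noncomputable def rt (g : G) : L2 G →L[ℂ] L2 G :=
  LinearMap.mkContinuous (rtl g) 1 (rtl_norm g)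

theorem rt_apply (g : G) (z : L2 G) (h : G) : (rt g z) h = z (h * g⁻¹) := rfl

theorem rt_mul (g g' : G) : rt (g * g') = rt g' * rt g := by
  ext z h
  change z (h * (g * g')⁻¹) = z (h * g'⁻¹ * g⁻¹)
  rw [_root_.mul_inv_rev, mul_assoc]

theorem rt_one : rt (1 : G) = 1 := by
  ext z h
  change z (h * 1⁻¹) = z h
  rw [inv_one, mul_one]

theorem rt_inner (g : G) (z w : L2 G) : inner ℂ (rt g z) w = inner ℂ z (rt g⁻¹ w) := by
  rw [lp.inner_eq_tsum, lp.inner_eq_tsum]
  rw [← (Equiv.mulRight g⁻¹).tsum_eq (fun h => inner ℂ (z h) ((rt g⁻¹ w) h))]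
  refine tsum_congr fun h => ?_
  rw [rt_apply, rt_apply]
  simp only [Equiv.coe_mulRight, inv_inv, inv_mul_cancel_right]

/-- The operator of right multiplication by an element of `ℤ[G]` on `ℓ²(G)`. -/
noncomputable def rA (a : MonoidAlgebra ℤ G) : L2 G →L[ℂ] L2 G :=
  a.coeff.sum fun g n => (n : ℂ) • rt g

theorem rA_zero : rA (0 : MonoidAlgebra ℤ G) = 0 := by
  unfold rA
  simp

theorem rA_add (a b : MonoidAlgebra ℤ G) : rA (a + b) = rA a + rA b := by
  unfold rA
  rw [MonoidAlgebra.coeff_add, Finsupp.sum_add_index']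
  · intro g
    simp
  · intro g m n
    push_cast
    rw [add_smul]

theorem rA_single (g : G) (n : ℤ) : rA (MonoidAlgebra.single g n) = (n : ℂ) • rt g := by
  unfold rA
  rw [MonoidAlgebra.coeff_single, Finsupp.sum_single_index]
  simp

theorem rA_one : rA (1 : MonoidAlgebra ℤ G) = 1 := by
  rw [MonoidAlgebra.one_def, rA_single, rt_one]
  simp

/-- `rA` as an additive map. -/
noncomputable def rAHom : MonoidAlgebra ℤ G →+ (L2 G →L[ℂ] L2 G) where
  toFun := rA
  map_zero' := rA_zero
  map_add' := rA_add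

theorem rA_sum {ι : Type} (s : Finset ι) (f : ι → MonoidAlgebra ℤ G) :
    rA (∑ i ∈ s, f i) = ∑ i ∈ s, rA (f i) := map_sum rAHom f s

theorem rA_mul (a b : MonoidAlgebra ℤ G) : rA (a * b) = rA b * rA a := by
  induction a using MonoidAlgebra.induction_linear with
  | zero => rw [zero_mul, rA_zero, mul_zero]
  | add x y hx hy => rw [add_mul, rA_add, rA_add, hx, hy, mul_add]
  | single g n =>
    induction b using MonoidAlgebra.induction_linear with
    | zero => rw [mul_zero, rA_zero, zero_mul]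
    | add x y hx hy => rw [mul_add, rA_add, rA_add, hx, hy, add_mul]
    | single h m =>
      rw [MonoidAlgebra.single_mul_single, rA_single, rA_single, rA_single, rt_mul]
      push_cast
      rw [smul_mul_smul_comm, mul_comm (n : ℂ)]

theorem rA_inner (a : MonoidAlgebra ℤ G) (z w : L2 G) :
    inner ℂ (rA a z) w = inner ℂ z (rA (inv1 a) w) := by
  induction a using MonoidAlgebra.induction_linear with
  | zero => rw [inv1_zero, rA_zero]; simp
  | add x y hx hy =>
    rw [inv1_add, rA_add, rA_add, _root_.add_apply, _root_.add_apply,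
      inner_add_left, inner_add_right, hx, hy]
  | single g n =>
    rw [inv1_single, rA_single, rA_single, _root_.smul_apply,
      _root_.smul_apply, inner_smul_left, inner_smul_right, rt_inner]
    simp

/-- The basis vector `1 ∈ G ⊆ ℓ²(G)`. -/
noncomputable def d1 (G : Type) [Group G] : L2 G :=
  open Classical in lp.single 2 (1 : G) (1 : ℂ)

theorem rA_d1 (a : MonoidAlgebra ℤ G) : inner ℂ (d1 G) (rA a (d1 G)) = (a.coeff 1 : ℂ) := by
  classical
  unfold d1
  rw [lp.inner_single_left]
  induction a using MonoidAlgebra.induction_linear with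
  | zero => rw [rA_zero]; simp
  | add x y hx hy =>
    rw [rA_add, _root_.add_apply, lp.coeFn_add, Pi.add_apply, inner_add_right, hx, hy]
    simp
  | single g n =>
    rw [rA_single, _root_.smul_apply, lp.coeFn_smul, Pi.smul_apply, rt_apply,
      one_mul, MonoidAlgebra.coeff_single]
    by_cases hg : g = 1
    · rw [hg, inv_one, Finsupp.single_eq_same]
      simp
    · rw [Finsupp.single_eq_of_ne (Ne.symm hg)]
      have h1 : (lp.single (E := fun _ : G => ℂ) 2 (1 : G) (1 : ℂ) : L2 G) g⁻¹ = 0 :=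
        lp.single_apply_ne (E := fun _ : G => ℂ) 2 (1 : G) (1 : ℂ) (by simpa using hg)
      rw [h1]
      simp

section mat

variable {X Y Z : Type} [Fintype X] [Fintype Y] [Fintype Z]

/-- The Hilbert space `ℓ²(G)^X`. -/
abbrev L2X (G X : Type) [Fintype X] : Type := PiLp 2 fun _ : X => L2 G

/-- Right multiplication by the matrix `A` over `ℤ[G]`, as a bounded operator from `ℓ²(G)^X` to
`ℓ²(G)^Y`: `(rop A z) y = ∑ x, (z x) * (A x y)`. -/
noncomputable def rop (A : Matrix X Y (MonoidAlgebra ℤ G)) : L2X G X →L[ℂ] L2X G Y :=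
  ((PiLp.continuousLinearEquiv 2 ℂ fun _ : Y => L2 G).symm : (Y → L2 G) →L[ℂ] L2X G Y).comp
    (ContinuousLinearMap.pi fun y => ∑ x, (rA (A x y)).comp (PiLp.proj 2 (fun _ : X => L2 G) x))

theorem rop_apply (A : Matrix X Y (MonoidAlgebra ℤ G)) (z : L2X G X) (y : Y) :
    (rop A z) y = ∑ x, rA (A x y) (z x) := by
  change (∑ x, (rA (A x y)).comp (PiLp.proj 2 (fun _ : X => L2 G) x)) z = _
  rw [_root_.sum_apply]
  rfl

theorem rop_mul (A : Matrix X Y (MonoidAlgebra ℤ G)) (B : Matrix Y Z (MonoidAlgebra ℤ G)) :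
    rop (A * B) = (rop B).comp (rop A) := by
  ext z w : 2
  rw [rop_apply, ContinuousLinearMap.comp_apply, rop_apply]
  simp only [rop_apply, map_sum, Matrix.mul_apply, rA_sum, rA_mul, _root_.sum_apply,
    mul_apply_eq_comp]
  rw [Finset.sum_comm]

theorem rop_add (A B : Matrix X Y (MonoidAlgebra ℤ G)) : rop (A + B) = rop A + rop B := by
  ext z w : 2
  rw [_root_.add_apply, PiLp.add_apply, rop_apply, rop_apply, rop_apply,
    ← Finset.sum_add_distrib]
  refine Finset.sum_congr rfl fun x _ => ?_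
  rw [Matrix.add_apply, rA_add, _root_.add_apply]

theorem rop_one [DecidableEq X] : rop (1 : Matrix X X (MonoidAlgebra ℤ G)) = 1 := by
  ext z w : 2
  rw [rop_apply, Finset.sum_eq_single w]
  · rw [Matrix.one_apply_eq, rA_one]
    rfl
  · intro b _ hb
    rw [Matrix.one_apply_ne hb, rA_zero]
    rfl
  · intro h
    exact absurd (Finset.mem_univ _) h

theorem rop_pow [DecidableEq X] (A : Matrix X X (MonoidAlgebra ℤ G)) (k : ℕ) :
    rop (A ^ k) = rop A ^ k := by
  induction k with
  | zero => rw [pow_zero, pow_zero, rop_one]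
  | succ k ih => rw [pow_succ, rop_mul, ih, pow_succ']; rfl

theorem rop_adjoint (A : Matrix X Y (MonoidAlgebra ℤ G)) :
    ContinuousLinearMap.adjoint (rop A) = rop (adj A) := by
  symm
  rw [ContinuousLinearMap.eq_adjoint_iff]
  intro w z
  rw [PiLp.inner_apply, PiLp.inner_apply]
  simp only [rop_apply, sum_inner, inner_sum, adj]
  rw [Finset.sum_comm]
  refine Finset.sum_congr rfl fun y _ => Finset.sum_congr rfl fun x _ => ?_
  rw [rA_inner, inv1_inv1]

/-- The basis vector of `ℓ²(G)^X` given by the cell `x` and the unit of `G`. -/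
noncomputable def ex (x : X) : L2X G X :=
  open Classical in PiLp.single 2 x (d1 G)

/-- The von Neumann trace of an operator on `ℓ²(G)^X`. -/
noncomputable def trN (T : L2X G X →L[ℂ] L2X G X) : ℂ := ∑ x, inner ℂ (ex x) (T (ex x))

theorem trN_rop (A : Matrix X X (MonoidAlgebra ℤ G)) : trN (rop A) = (tr1 A : ℂ) := by
  classical
  unfold trN tr1
  push_cast
  refine Finset.sum_congr rfl fun x _ => ?_
  rw [PiLp.inner_apply, Finset.sum_eq_single x]
  · rw [rop_apply, Finset.sum_eq_single x]
    · unfold ex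
      rw [PiLp.single_eq_same, rA_d1]
    · intro b _ hb
      unfold ex
      rw [PiLp.single_eq_of_ne _ hb, map_zero]
    · intro h
      exact absurd (Finset.mem_univ _) h
  · intro b _ hb
    unfold ex
    rw [PiLp.single_eq_of_ne _ hb, inner_zero_left]
  · intro h
    exact absurd (Finset.mem_univ _) h

theorem trN_add (S T : L2X G X →L[ℂ] L2X G X) : trN (S + T) = trN S + trN T := by
  unfold trN
  rw [← Finset.sum_add_distrib]
  refine Finset.sum_congr rfl fun x _ => ?_
  rw [_root_.add_apply, inner_add_right]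

theorem trN_smul (c : ℂ) (T : L2X G X →L[ℂ] L2X G X) : trN (c • T) = c * trN T := by
  unfold trN
  rw [Finset.mul_sum]
  refine Finset.sum_congr rfl fun x _ => ?_
  rw [_root_.smul_apply, inner_smul_right]

theorem ex_norm (x : X) : ‖(ex x : L2X G X)‖ = 1 := by
  classical
  unfold ex d1
  rw [PiLp.norm_single, lp.norm_single (by norm_num)]
  simp

theorem trN_norm (T : L2X G X →L[ℂ] L2X G X) : ‖trN T‖ ≤ Fintype.card X * ‖T‖ := by
  unfold trN
  refine (norm_sum_le _ _).trans ?_
  calc ∑ x : X, ‖inner ℂ (ex x : L2X G X) (T (ex x))‖ ≤ ∑ _x : X, ‖T‖ := by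
        refine Finset.sum_le_sum fun x _ => ?_
        refine (norm_inner_le_norm _ _).trans ?_
        rw [ex_norm, one_mul]
        refine (T.le_opNorm _).trans ?_
        rw [ex_norm, mul_one]
    _ = Fintype.card X * ‖T‖ := by simp

theorem trN_sub (S T : L2X G X →L[ℂ] L2X G X) : trN (S - T) = trN S - trN T := by
  unfold trN
  rw [← Finset.sum_sub_distrib]
  refine Finset.sum_congr rfl fun x _ => ?_
  rw [_root_.sub_apply, inner_sub_right]

theorem rop_selfAdjoint {A : Matrix X X (MonoidAlgebra ℤ G)} (hA : adj A = A) :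
    IsSelfAdjoint (rop A) := by
  rw [ContinuousLinearMap.isSelfAdjoint_iff', rop_adjoint, hA]

end mat

end Pool.Agent.LT.H91
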