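import Pool.Agent.Helper91_LT.Opr

/-!
# LT: OPR, part 2. The measure `C.spec p` is the spectral measure of the `L²`-Laplacian with respect
to the von Neumann trace.
-/

set_option autoImplicit false
set_option linter.unusedSectionVars false

namespace Pool.Agent.LT.H91

open Matrix MeasureTheory

section gen

variable {H : Type} [NormedAddCommGroup H] [InnerProductSpace ℂ H] [CompleteSpace H]
  {X : Type} [Fintype X]

/-- Sum of vector states. -/
noncomputable def vst (v : X → H) (T : H →L[ℂ] H) : ℂ := ∑ x, inner ℂ (v x) (T (v x))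

theorem vst_add (v : X → H) (S T : H →L[ℂ] H) : vst v (S + T) = vst v S + vst v T := by
  unfold vst
  rw [← Finset.sum_add_distrib]
  refine Finset.sum_congr rfl fun x _ => ?_
  rw [_root_.add_apply, inner_add_right]

theorem vst_sub (v : X → H) (S T : H →L[ℂ] H) : vst v (S - T) = vst v S - vst v T := by
  unfold vst
  rw [← Finset.sum_sub_distrib]
  refine Finset.sum_congr rfl fun x _ => ?_
  rw [_root_.sub_apply, inner_sub_right]

theorem vst_rsmul (v : X → H) (a : ℝ) (T : H →L[ℂ] H) : vst v (a • T) = (a : ℂ) * vst v T := by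
  unfold vst
  rw [Finset.mul_sum]
  refine Finset.sum_congr rfl fun x _ => ?_
  rw [_root_.smul_apply, RCLike.real_smul_eq_coe_smul (K := ℂ), inner_smul_right]
  rfl

theorem vst_norm (v : X → H) (hv : ∀ x, ‖v x‖ = 1) (T : H →L[ℂ] H) :
    ‖vst v T‖ ≤ Fintype.card X * ‖T‖ := by
  unfold vst
  refine (norm_sum_le _ _).trans ?_
  calc ∑ x : X, ‖inner ℂ (v x) (T (v x))‖ ≤ ∑ _x : X, ‖T‖ := by
        refine Finset.sum_le_sum fun x _ => ?_
        refine (norm_inner_le_norm _ _).trans ?_
        rw [hv, one_mul]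
        refine (T.le_opNorm _).trans ?_
        rw [hv, mul_one]
    _ = Fintype.card X * ‖T‖ := by simp

theorem vst_aeval (v : X → H) (T : H →L[ℂ] H) {μ : Measure ℝ} [IsFiniteMeasure μ] {K : ℝ}
    (hK : μ (Set.Icc 0 K)ᶜ = 0) (hm : ∀ k : ℕ, vst v (T ^ k) = ((∫ x, x ^ k ∂μ : ℝ) : ℂ))
    (p : Polynomial ℝ) : vst v (Polynomial.aeval T p) = ((∫ x, p.eval x ∂μ : ℝ) : ℂ) := by
  induction p using Polynomial.induction_on' with
  | add p q hp hq =>
    rw [map_add, vst_add, hp, hq]
    simp only [Polynomial.eval_add]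
    rw [integral_add (integrable_of_supp hK p.continuous) (integrable_of_supp hK q.continuous)]
    push_cast
    rfl
  | monomial n a =>
    rw [Polynomial.aeval_monomial, ← Algebra.smul_def, vst_rsmul, hm]
    simp only [Polynomial.eval_monomial]
    rw [integral_const_mul]
    push_cast
    rfl

theorem vst_cfc (v : X → H) (hv : ∀ x, ‖v x‖ = 1) (T : H →L[ℂ] H) (hT : IsSelfAdjoint T)
    {μ : Measure ℝ} [IsFiniteMeasure μ] {K : ℝ}
    (hK : μ (Set.Icc 0 K)ᶜ = 0) (hm : ∀ k : ℕ, vst v (T ^ k) = ((∫ x, x ^ k ∂μ : ℝ) : ℂ))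
    {f : ℝ → ℝ} (hf : Continuous f) :
    vst v (cfc f T) = ((∫ x, f x ∂μ : ℝ) : ℂ) := by
  set B := max (‖T‖ * ‖(1 : H →L[ℂ] H)‖) K with hB
  have hspec : ∀ x ∈ spectrum ℝ T, x ∈ Set.Icc (-B) B := by
    intro x hx
    have h1 := spectrum.norm_le_norm_mul_of_mem hx
    rw [Real.norm_eq_abs] at h1
    exact abs_le.mp (h1.trans (le_max_left _ _))
  have hKB : Set.Icc (0 : ℝ) K ⊆ Set.Icc (-B) B := by
    intro x hx
    have h1 : 0 ≤ B := le_max_of_le_left (by positivity)
    exact ⟨by linarith [hx.1], hx.2.trans (le_max_right _ _)⟩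
  rw [← sub_eq_zero, ← norm_eq_zero]
  refine le_antisymm (le_of_forall_pos_le_add fun ε hε => ?_) (norm_nonneg _)
  set c : ℝ := Fintype.card X + μ.real Set.univ + 1 with hc
  have hc0 : 0 < c := by positivity
  obtain ⟨p, hp⟩ := exists_polynomial_near_of_continuousOn (-B) B f hf.continuousOn (ε / c)
    (by positivity)
  have h1 : ‖vst v (cfc f T) - vst v (Polynomial.aeval T p)‖ ≤ Fintype.card X * (ε / c) := by
    rw [← vst_sub]
    refine (vst_norm v hv _).trans (mul_le_mul_of_nonneg_left ?_ (by positivity))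
    rw [← cfc_polynomial (R := ℝ) p T, ← cfc_sub f p.eval T]
    refine norm_cfc_le (by positivity) fun x hx => ?_
    rw [Real.norm_eq_abs, abs_sub_comm]
    exact (hp x (hspec x hx)).le
  have h2 := vst_aeval v T hK hm p
  have h3 := approx hK hf p (ε := ε / c) fun x hx => (hp x (hKB hx)).le
  rw [h2] at h1
  calc ‖vst v (cfc f T) - ((∫ x, f x ∂μ : ℝ) : ℂ)‖
      = ‖(vst v (cfc f T) - ((∫ x, p.eval x ∂μ : ℝ) : ℂ)) +
          (((∫ x, p.eval x ∂μ : ℝ) : ℂ) - ((∫ x, f x ∂μ : ℝ) : ℂ))‖ := by congr 1; ring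
    _ ≤ ‖vst v (cfc f T) - ((∫ x, p.eval x ∂μ : ℝ) : ℂ)‖ +
          ‖((∫ x, p.eval x ∂μ : ℝ) : ℂ) - ((∫ x, f x ∂μ : ℝ) : ℂ)‖ := norm_add_le _ _
    _ ≤ Fintype.card X * (ε / c) + ε / c * μ.real Set.univ := by
        refine add_le_add h1 ?_
        rw [← Complex.ofReal_sub, Complex.norm_real, Real.norm_eq_abs]
        exact h3
    _ = (c - 1) * (ε / c) := by rw [hc]; ring
    _ ≤ c * (ε / c) := by
        have : 0 < ε / c := by positivity
        nlinarith
    _ = 0 + ε := by field_simp; ring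

theorem cfcInst (H : Type) [NormedAddCommGroup H] [InnerProductSpace ℂ H] [CompleteSpace H] :
    ContinuousFunctionalCalculus ℝ (H →L[ℂ] H) IsSelfAdjoint := inferInstance

end gen

variable {G : Type} [Group G] {X : Type} [Fintype X]

instance instCfc : ContinuousFunctionalCalculus ℝ (L2X G X →L[ℂ] L2X G X) IsSelfAdjoint :=
  cfcInst (L2X G X)

/-- The spectral measure of `A` computes the von Neumann trace of the functional calculus of the
operator of right multiplication by `A`. -/
theorem trN_cfc [DecidableEq X] {A : Matrix X X (MonoidAlgebra ℤ G)} (hA : adj A = A)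
    {μ : Measure ℝ} (hμ : IsSpec A μ) {f : ℝ → ℝ} (hf : Continuous f) :
    trN (cfc f (rop A)) = ((∫ x, f x ∂μ : ℝ) : ℂ) := by
  have hfin := hμ.fin
  obtain ⟨K, hK⟩ := hμ.supp
  have hm : ∀ k : ℕ, vst (H := L2X G X) ex (rop A ^ k) = ((∫ x, x ^ k ∂μ : ℝ) : ℂ) := by
    intro k
    have h1 := trN_rop (A ^ k)
    rw [rop_pow] at h1
    rw [hμ.mom]
    push_cast
    exact h1
  exact vst_cfc (H := L2X G X) ex ex_norm (rop A) (rop_selfAdjoint hA) hK hm hf

/-! ### The Laplacians of a resolution -/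

variable (C : Res G)

/-- The block of the boundary matrix from dimension `p + 1` to dimension `p`. -/
noncomputable def bdp (p : ℕ) :
    Matrix {x // C.dim x = p + 1} {x // C.dim x = p} (MonoidAlgebra ℤ G) :=
  C.bd.submatrix Subtype.val Subtype.val

/-- The differential `ℓ²(G)^(X_(p+1)) → ℓ²(G)^(X_p)` of the `ℓ²`-chain complex: right
multiplication by the block of the boundary matrix. -/
noncomputable def cop (p : ℕ) :
    L2X G {x // C.dim x = p + 1} →L[ℂ] L2X G {x // C.dim x = p} := rop (bdp C p)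

theorem lapp_adj (p : ℕ) : adj (C.lapp p) = C.lapp p := by
  have hlap : adj C.lap = C.lap := by
    unfold Res.lap
    rw [adj_add, adj_mul, adj_mul, adj_adj]
  ext x y : 1
  exact congrFun (congrFun hlap x.1) y.1

theorem isSpec_spec (p : ℕ) : IsSpec (C.lapp p) (C.spec p) := by
  classical
  unfold Res.spec
  have h := spe G C p
  rw [dif_pos h]
  exact h.choose_spec

theorem sum_block {M : Type} [AddCommMonoid M] (q : ℕ) (F : C.X → M)
    (hF : ∀ z, C.dim z ≠ q → F z = 0) : ∑ z, F z = ∑ z : {x // C.dim x = q}, F z.1 := by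
  classical
  have h1 : ∑ z, F z = ∑ z ∈ Finset.univ.filter (fun z => C.dim z = q), F z := by
    rw [Finset.sum_filter]
    refine Finset.sum_congr rfl fun z _ => ?_
    by_cases hz : C.dim z = q
    · rw [if_pos hz]
    · rw [if_neg hz, hF z hz]
  rw [h1]
  exact Finset.sum_subtype _ (fun z => by simp) F

theorem lapp_zero : C.lapp 0 = adj (bdp C 0) * bdp C 0 := by
  ext x y : 1
  have h1 : (C.bd * adj C.bd) x.1 y.1 = 0 := by
    rw [Matrix.mul_apply]
    refine Finset.sum_eq_zero fun z _ => ?_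
    have : C.bd x.1 z = 0 := by
      by_contra h
      have := C.bd_dim _ _ h
      rw [x.2] at this
      omega
    rw [this, zero_mul]
  have h2 : (adj C.bd * C.bd) x.1 y.1 = (adj (bdp C 0) * bdp C 0) x y := by
    rw [Matrix.mul_apply, Matrix.mul_apply]
    refine sum_block C 1 (fun z => adj C.bd x.1 z * C.bd z y.1) fun z hz => ?_
    have : C.bd z y.1 = 0 := by
      by_contra h
      have := C.bd_dim _ _ h
      rw [y.2] at this
      omega
    simp only [this, mul_zero]
  change (C.bd * adj C.bd + adj C.bd * C.bd) x.1 y.1 = _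
  rw [Matrix.add_apply, h1, h2, zero_add]

theorem lapp_succ (p : ℕ) :
    C.lapp (p + 1) = bdp C p * adj (bdp C p) + adj (bdp C (p + 1)) * bdp C (p + 1) := by
  ext x y : 1
  have h1 : (C.bd * adj C.bd) x.1 y.1 = (bdp C p * adj (bdp C p)) x y := by
    rw [Matrix.mul_apply, Matrix.mul_apply]
    refine sum_block C p (fun z => C.bd x.1 z * adj C.bd z y.1) fun z hz => ?_
    have : C.bd x.1 z = 0 := by
      by_contra h
      have := C.bd_dim _ _ h
      rw [x.2] at this
      omega
    simp only [this, zero_mul]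
  have h2 : (adj C.bd * C.bd) x.1 y.1 = (adj (bdp C (p + 1)) * bdp C (p + 1)) x y := by
    rw [Matrix.mul_apply, Matrix.mul_apply]
    refine sum_block C (p + 1 + 1) (fun z => adj C.bd x.1 z * C.bd z y.1) fun z hz => ?_
    have : C.bd z y.1 = 0 := by
      by_contra h
      have := C.bd_dim _ _ h
      rw [y.2] at this
      omega
    simp only [this, mul_zero]
  change (C.bd * adj C.bd + adj C.bd * C.bd) x.1 y.1 = _
  rw [Matrix.add_apply, h1, h2]
  rfl

/-- The `L²`-Laplacians of the `ℓ²`-chain complex are `Δ_0 = c_1 c_1^*` and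
`Δ_p = c_p^* c_p + c_(p+1) c_(p+1)^*`, where `c_(p+1) = cop C p`. -/
theorem rop_lapp_zero : rop (C.lapp 0) = (cop C 0).comp (ContinuousLinearMap.adjoint (cop C 0)) := by
  rw [lapp_zero, rop_mul, ← rop_adjoint]
  rfl

theorem rop_lapp_succ (p : ℕ) : rop (C.lapp (p + 1)) =
    (ContinuousLinearMap.adjoint (cop C p)).comp (cop C p) +
      (cop C (p + 1)).comp (ContinuousLinearMap.adjoint (cop C (p + 1))) := by
  rw [lapp_succ, rop_add, rop_mul, rop_mul, ← rop_adjoint, ← rop_adjoint]
  rfl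

/-- The measure `C.spec p` is the spectral measure of the `p`-th `L²`-Laplacian with respect to
the von Neumann trace. -/
theorem opr (p : ℕ) {f : ℝ → ℝ} (hf : Continuous f) :
    trN (cfc f (rop (C.lapp p))) = ((∫ x, f x ∂(C.spec p) : ℝ) : ℂ) :=
  trN_cfc (lapp_adj C p) (isSpec_spec C p) hf

end Pool.Agent.LT.H91
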